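import Pool.Agent.Helper46.TB.Tree

/-!
# A tree of numbers whose powers avoid prescribed residues modulo one
-/

set_option autoImplicit false

namespace Pool.Agent.Helper46.TB

open Set

theorem pow_diff_lower (m : ℕ) {a b : ℝ} (ha : 0 ≤ a) (hab : a ≤ b) :
    ((m : ℝ) + 1) * a ^ m * (b - a) ≤ b ^ (m + 1) - a ^ (m + 1) := by
  induction m with
  | zero => simp
  | succ m ih =>
    have h1 : 0 ≤ a ^ m * (b - a) := mul_nonneg (pow_nonneg ha _) (by linarith)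
    have h2 : 0 ≤ b ^ (m + 1) - a ^ (m + 1) := sub_nonneg.2 (pow_le_pow_left₀ ha hab _)
    have h3 := mul_le_mul_of_nonneg_left ih ha
    have h4 := mul_le_mul_of_nonneg_right hab h2
    push_cast
    calc ((m : ℝ) + 1 + 1) * a ^ (m + 1) * (b - a) = a * (((m : ℝ) + 1) * a ^ m * (b - a)) + a ^ (m + 1) * (b - a) := by ring
      _ ≤ b * (b ^ (m + 1) - a ^ (m + 1)) + a ^ (m + 1) * (b - a) := by linarith
      _ = _ := by ring

theorem pow_diff_upper (m : ℕ) {a b : ℝ} (ha : 0 ≤ a) (hab : a ≤ b) :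
    b ^ (m + 1) - a ^ (m + 1) ≤ ((m : ℝ) + 1) * b ^ m * (b - a) := by
  have hb := ha.trans hab
  induction m with
  | zero => simp
  | succ m ih =>
    have h3 := mul_le_mul_of_nonneg_left ih hb
    have h4 : a ^ (m + 1) * (b - a) ≤ b ^ (m + 1) * (b - a) :=
      mul_le_mul_of_nonneg_right (pow_le_pow_left₀ ha hab _) (by linarith)
    push_cast
    calc b ^ (m + 1 + 1) - a ^ (m + 1 + 1) = b * (b ^ (m + 1) - a ^ (m + 1)) + a ^ (m + 1) * (b - a) := by ring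
      _ ≤ b * (((m : ℝ) + 1) * b ^ m * (b - a)) + b ^ (m + 1) * (b - a) := by linarith
      _ = _ := by ring

/-- comparison of the images at two exponents -/
theorem pow_diff_add (n i : ℕ) (hn : 1 ≤ n) {a b : ℝ} (ha : 0 ≤ a) (hab : a ≤ b) :
    b ^ (n + i) - a ^ (n + i) ≤ ((i : ℝ) + 1) * b ^ i * (b ^ n - a ^ n) := by
  have hb := ha.trans hab
  obtain ⟨m, rfl⟩ := Nat.exists_eq_add_of_le' hn
  have h0 : a ^ m * (b - a) ≤ b ^ (m + 1) - a ^ (m + 1) := by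
    have h1 : a ^ m ≤ b ^ m := pow_le_pow_left₀ ha hab _
    have h2 := mul_le_mul_of_nonneg_left h1 hb
    calc a ^ m * (b - a) = b * a ^ m - a ^ (m + 1) := by ring
      _ ≤ b * b ^ m - a ^ (m + 1) := by linarith
      _ = _ := by ring
  induction i with
  | zero => simp
  | succ i ih =>
    have h3 := mul_le_mul_of_nonneg_left ih hb
    have h4 : a ^ (m + 1 + i) * (b - a) ≤ b ^ (i + 1) * (b ^ (m + 1) - a ^ (m + 1)) := by
      have h5 : a ^ (i + 1) ≤ b ^ (i + 1) := pow_le_pow_left₀ ha hab _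
      have h6 : 0 ≤ a ^ m * (b - a) := mul_nonneg (pow_nonneg ha _) (by linarith)
      calc a ^ (m + 1 + i) * (b - a) = a ^ (i + 1) * (a ^ m * (b - a)) := by ring
        _ ≤ b ^ (i + 1) * (a ^ m * (b - a)) := mul_le_mul_of_nonneg_right h5 h6
        _ ≤ _ := mul_le_mul_of_nonneg_left h0 (pow_nonneg hb _)
    push_cast
    calc b ^ (m + 1 + (i + 1)) - a ^ (m + 1 + (i + 1)) =
        b * (b ^ (m + 1 + i) - a ^ (m + 1 + i)) + a ^ (m + 1 + i) * (b - a) := by ring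
      _ ≤ b * (((i : ℝ) + 1) * b ^ i * (b ^ (m + 1) - a ^ (m + 1))) + b ^ (i + 1) * (b ^ (m + 1) - a ^ (m + 1)) := by
        linarith
      _ = _ := by ring

/-- parameters of the construction -/
structure Par where
  θ : ℝ
  Θ : ℝ
  M : ℕ
  ξ : ℕ → ℝ
  ℓ : ℝ
  δ : ℝ
  x0 : ℝ
  hθ : 1 < θ
  hx0 : θ ≤ x0
  hx1 : x0 + ℓ ≤ Θ
  hM : 4 * ((M : ℝ) + 1) ≤ θ ^ M
  hℓ : 0 < ℓ
  hℓ1 : (((M : ℝ) + 1) * Θ ^ M) * ℓ ≤ 1 / 4
  hδ : 0 < δ
  hδ1 : 2 * (((M : ℝ) + 1) * Θ ^ M) * δ ≤ ℓ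
  h1 : ∀ x ∈ Icc x0 (x0 + ℓ), ∀ m : ℤ, δ ≤ |x - ξ 1 - m|

namespace Par

variable (S : Par)

theorem θ_lt_Θ : S.θ < S.Θ := by linarith [S.hx0, S.hx1, S.hℓ]

theorem one_lt_Θ : 1 < S.Θ := S.hθ.trans S.θ_lt_Θ

/-- distortion constant -/
noncomputable def K : ℝ := ((S.M : ℝ) + 1) * S.Θ ^ S.M

theorem one_le_K : 1 ≤ S.K := by
  unfold K
  have h1 : 1 ≤ S.Θ ^ S.M := one_le_pow₀ S.one_lt_Θ.le
  have h2 : (0 : ℝ) ≤ S.M := Nat.cast_nonneg _
  nlinarith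

theorem K_pos : 0 < S.K := by linarith [S.one_le_K]

theorem ℓ_le : S.ℓ ≤ 1 / 4 := by
  have h1 : S.K * S.ℓ ≤ 1 / 4 := S.hℓ1
  have h2 := S.one_le_K
  nlinarith [S.hℓ]

theorem diff_le (n i : ℕ) (hn : 1 ≤ n) (hi : i ≤ S.M) {a b : ℝ} (ha : S.θ ≤ a) (hab : a ≤ b) (hb : b ≤ S.Θ) :
    b ^ (n + i) - a ^ (n + i) ≤ S.K * (b ^ n - a ^ n) := by
  have h1 := S.hθ
  have ha0 : 0 ≤ a := by linarith
  refine (pow_diff_add n i hn ha0 hab).trans ?_
  apply mul_le_mul_of_nonneg_right _ (sub_nonneg.2 (pow_le_pow_left₀ ha0 hab _))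
  unfold K
  apply mul_le_mul
  · have : (i : ℝ) ≤ S.M := by exact_mod_cast hi
    linarith
  · exact (pow_le_pow_left₀ (by linarith) hb _).trans (pow_le_pow_right₀ S.one_lt_Θ.le hi)
  · exact pow_nonneg (by linarith) _
  · have : (0 : ℝ) ≤ S.M := Nat.cast_nonneg _
    linarith

/-- nodes -/
def Nd (n : ℕ) (p : ℝ × ℝ) : Prop := S.θ ≤ p.1 ∧ p.2 ≤ S.Θ ∧ p.1 < p.2 ∧ p.2 ^ n - p.1 ^ n = S.ℓ

theorem ratio (n : ℕ) (hn : 1 ≤ n) {p : ℝ × ℝ} (hp : S.Nd n p) {c c' : ℝ} (h1 : p.1 ≤ c) (h2 : c ≤ c') (h3 : c' ≤ p.2)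
    (h4 : c' ^ (n + S.M) - c ^ (n + S.M) = S.ℓ) : (1 / (2 * S.K)) * (p.2 - p.1) ≤ c' - c := by
  obtain ⟨ha, hb, hab, hℓ⟩ := hp
  have hθ := S.hθ
  have hK := S.K_pos
  have hc : 0 ≤ c := by linarith
  have hp1 : 0 < p.1 := by linarith
  have hp2 : 0 < p.2 := by linarith
  have e1 := S.diff_le n S.M hn le_rfl (ha.trans h1) h2 (h3.trans hb)
  rw [h4] at e1
  obtain ⟨m, rfl⟩ := Nat.exists_eq_add_of_le' hn
  have e2 := pow_diff_upper m hc h2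
  have e3 := pow_diff_lower m hp1.le hab.le
  rw [hℓ] at e3
  have e4 : p.2 ^ m ≤ 2 * p.1 ^ m := by
    have e5 : p.2 ^ (m + 1) ≤ 2 * p.1 ^ (m + 1) := by
      have e6 : 1 ≤ p.1 ^ (m + 1) := one_le_pow₀ (by linarith)
      have := S.ℓ_le
      linarith
    have e6 : p.2 * p.2 ^ m ≤ p.2 * (2 * p.1 ^ m) := by
      calc p.2 * p.2 ^ m = p.2 ^ (m + 1) := by ring
        _ ≤ 2 * p.1 ^ (m + 1) := e5
        _ = p.1 * (2 * p.1 ^ m) := by ring
        _ ≤ p.2 * (2 * p.1 ^ m) := mul_le_mul_of_nonneg_right hab.le (by positivity)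
    exact le_of_mul_le_mul_left e6 hp2
  have e5 : c' ^ m ≤ p.2 ^ m := pow_le_pow_left₀ (hc.trans h2) h3 _
  have hm : (0 : ℝ) < (m : ℝ) + 1 := by positivity
  have hcc : 0 ≤ c' - c := by linarith
  have e6 : ((m : ℝ) + 1) * p.1 ^ m * (p.2 - p.1) ≤ ((m : ℝ) + 1) * p.1 ^ m * (2 * S.K * (c' - c)) := by
    calc ((m : ℝ) + 1) * p.1 ^ m * (p.2 - p.1) ≤ S.ℓ := e3
      _ ≤ S.K * (c' ^ (m + 1) - c ^ (m + 1)) := e1
      _ ≤ S.K * (((m : ℝ) + 1) * c' ^ m * (c' - c)) := mul_le_mul_of_nonneg_left e2 hK.le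
      _ ≤ S.K * (((m : ℝ) + 1) * (2 * p.1 ^ m) * (c' - c)) := by
        apply mul_le_mul_of_nonneg_left _ hK.le
        apply mul_le_mul_of_nonneg_right _ hcc
        exact mul_le_mul_of_nonneg_left (e5.trans e4) hm.le
      _ = _ := by ring
  have e7 := le_of_mul_le_mul_left e6 (by positivity)
  rw [one_div, inv_mul_le_iff₀ (by positivity)]
  exact e7

theorem exists_free (n : ℕ) (hn : 1 ≤ n) {p : ℝ × ℝ} (hp : S.Nd n p) :
    ∃ j : ℕ, j ≤ S.M ∧ ∀ x ∈ Icc p.1 p.2, p.1 ^ (n + S.M) + 4 * S.ℓ * j ≤ x ^ (n + S.M) →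
      x ^ (n + S.M) ≤ p.1 ^ (n + S.M) + 4 * S.ℓ * j + 3 * S.ℓ →
      ∀ i, 1 ≤ i → i ≤ S.M → ∀ m : ℤ, S.δ ≤ |x ^ (n + i) - S.ξ (n + i) - m| := by
  obtain ⟨ha, hb, hab, hℓ⟩ := hp
  have hθ := S.hθ
  have hK := S.K_pos
  by_contra hcon
  push Not at hcon
  have hcon' : ∀ j : Fin (S.M + 1), ∃ x ∈ Icc p.1 p.2, p.1 ^ (n + S.M) + 4 * S.ℓ * (j : ℕ) ≤ x ^ (n + S.M) ∧
      x ^ (n + S.M) ≤ p.1 ^ (n + S.M) + 4 * S.ℓ * (j : ℕ) + 3 * S.ℓ ∧
      ∃ i : Fin S.M, ∃ m : ℤ, |x ^ (n + ((i : ℕ) + 1)) - S.ξ (n + ((i : ℕ) + 1)) - m| < S.δ := by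
    intro j
    obtain ⟨x, hx, h1, h2, i, hi1, hi2, m, hm⟩ := hcon j (Nat.lt_succ_iff.1 j.2)
    refine ⟨x, hx, h1, h2, ⟨i - 1, by omega⟩, m, ?_⟩
    simp only
    rw [Nat.sub_add_cancel hi1]
    exact hm
  choose x hx hx1 hx2 i m hm using hcon'
  obtain ⟨j, j', hne, hij⟩ := Fintype.exists_ne_map_eq_of_card_lt i (by simp)
  wlog hlt : j < j' generalizing j j'
  · exact this j' j hne.symm hij.symm (lt_of_le_of_ne (not_lt.1 hlt) hne.symm)
  set I : ℕ := (i j : ℕ) + 1 with hI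
  have hI' : ((i j' : ℕ) + 1) = I := by rw [hI, hij]
  have hIM : I ≤ S.M := by have := (i j).2; omega
  have m1 := hm j
  have m2 := hm j'
  rw [hI'] at m2
  rw [← hI] at m1
  have hjj : ((j : ℕ) : ℝ) + 1 ≤ ((j' : ℕ) : ℝ) := by exact_mod_cast hlt
  have hYlt : x j ^ (n + S.M) + S.ℓ ≤ x j' ^ (n + S.M) := by
    have h1 := hx2 j
    have h2 := hx1 j'
    have h3 : 4 * S.ℓ * (((j : ℕ) : ℝ) + 1) ≤ 4 * S.ℓ * ((j' : ℕ) : ℝ) :=
      mul_le_mul_of_nonneg_left hjj (by linarith [S.hℓ])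
    linarith
  have hxj := hx j
  have hxj' := hx j'
  have hxle : x j ≤ x j' := by
    by_contra h
    push Not at h
    have := pow_le_pow_left₀ (by linarith [hxj'.1] : 0 ≤ x j') h.le (n + S.M)
    linarith [S.hℓ]
  have hpos : 0 ≤ x j := by linarith [hxj.1]
  -- the images at exponent `n + I`
  have d1 : x j' ^ (n + I) - x j ^ (n + I) ≤ 1 / 4 := by
    have h1 : x j' ^ (n + I) ≤ p.2 ^ (n + I) := pow_le_pow_left₀ (hpos.trans hxle) hxj'.2 _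
    have h2 : p.1 ^ (n + I) ≤ x j ^ (n + I) := pow_le_pow_left₀ (by linarith) hxj.1 _
    have h3 := S.diff_le n I hn hIM ha hab.le hb
    rw [hℓ] at h3
    have h4 : S.K * S.ℓ ≤ 1 / 4 := S.hℓ1
    linarith
  have d0 : 0 ≤ x j' ^ (n + I) - x j ^ (n + I) := sub_nonneg.2 (pow_le_pow_left₀ hpos hxle _)
  have hδ4 : S.δ ≤ 1 / 8 := by
    have h1 : 2 * S.K * S.δ ≤ S.ℓ := S.hδ1
    have h2 := S.one_le_K
    have h3 := S.ℓ_le
    have h4 := S.hδ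
    nlinarith
  have hmm : m j = m j' := by
    rw [abs_lt] at m1 m2
    have h1 : ((m j : ℤ) : ℝ) - (m j' : ℤ) < 1 := by linarith [m1.1, m1.2, m2.1, m2.2]
    have h2 : -1 < ((m j : ℤ) : ℝ) - (m j' : ℤ) := by linarith [m1.1, m1.2, m2.1, m2.2]
    have h3 : m j - m j' < 1 := by exact_mod_cast h1
    have h4 : -1 < m j - m j' := by exact_mod_cast h2
    omega
  rw [hmm] at m1
  have d2 : x j' ^ (n + I) - x j ^ (n + I) < 2 * S.δ := by
    rw [abs_lt] at m1 m2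
    linarith [m1.1, m1.2, m2.1, m2.2]
  have d3 := S.diff_le (n + I) (S.M - I) (by omega) (Nat.sub_le _ _) (ha.trans hxj.1) hxle (hxj'.2.trans hb)
  rw [show n + I + (S.M - I) = n + S.M by omega] at d3
  have d4 : S.K * (x j' ^ (n + I) - x j ^ (n + I)) < S.K * (2 * S.δ) := mul_lt_mul_of_pos_left d2 hK
  have d5 : 2 * S.K * S.δ ≤ S.ℓ := S.hδ1
  linarith

theorem step (n : ℕ) (hn : 1 ≤ n) (p : ℝ × ℝ) (hp : S.Nd n p) : ∃ q : Bool → ℝ × ℝ, (∀ b, S.Nd (n + S.M) (q b)) ∧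
    (∀ b, p.1 ≤ (q b).1 ∧ (q b).2 ≤ p.2 ∧ (1 / (2 * S.K)) * (p.2 - p.1) ≤ (q b).2 - (q b).1) ∧
    (q false).2 + (1 / (2 * S.K)) * (p.2 - p.1) ≤ (q true).1 ∧
    (∀ b, ∀ x ∈ Icc (q b).1 (q b).2, ∀ i, 1 ≤ i → i ≤ S.M → ∀ m : ℤ, S.δ ≤ |x ^ (n + i) - S.ξ (n + i) - m|) := by
  obtain ⟨j, hj, hfree⟩ := S.exists_free n hn hp
  have hp' := hp
  obtain ⟨ha, hb, hab, hℓ⟩ := hp'
  have hθ := S.hθ
  have hK := S.K_pos
  have hℓ0 := S.hℓ
  have hjM : ((j : ℕ) : ℝ) ≤ S.M := by exact_mod_cast hj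
  have hp1 : 0 ≤ p.1 := by linarith
  set Y : ℝ := p.1 ^ (n + S.M) + 4 * S.ℓ * j with hY
  have htop : Y + 3 * S.ℓ ≤ p.2 ^ (n + S.M) := by
    have h1 : p.1 ^ S.M * (p.2 ^ n - p.1 ^ n) ≤ p.2 ^ (n + S.M) - p.1 ^ (n + S.M) := by
      have h2 : p.1 ^ S.M ≤ p.2 ^ S.M := pow_le_pow_left₀ hp1 hab.le _
      have h3 : 0 ≤ p.2 ^ n := pow_nonneg (by linarith) _
      have h4 := mul_le_mul_of_nonneg_right h2 h3
      calc p.1 ^ S.M * (p.2 ^ n - p.1 ^ n) = p.1 ^ S.M * p.2 ^ n - p.1 ^ (n + S.M) := by ring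
        _ ≤ p.2 ^ S.M * p.2 ^ n - p.1 ^ (n + S.M) := by linarith
        _ = _ := by ring
    rw [hℓ] at h1
    have h2 : S.θ ^ S.M ≤ p.1 ^ S.M := pow_le_pow_left₀ (by linarith) ha _
    have h3 := S.hM
    have h4 : (4 * ((S.M : ℝ) + 1)) * S.ℓ ≤ p.1 ^ S.M * S.ℓ := mul_le_mul_of_nonneg_right (h3.trans h2) hℓ0.le
    have h5 : 4 * S.ℓ * j ≤ 4 * S.ℓ * S.M := mul_le_mul_of_nonneg_left hjM (by linarith)
    rw [hY]
    linarith
  have hbot : p.1 ^ (n + S.M) ≤ Y := by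
    rw [hY]
    have : 0 ≤ 4 * S.ℓ * (j : ℝ) := by positivity
    linarith
  have hivt : ∀ t : ℝ, 0 ≤ t → t ≤ 3 → ∃ c ∈ Icc p.1 p.2, c ^ (n + S.M) = Y + t * S.ℓ := by
    intro t ht0 ht3
    have hcont : ContinuousOn (fun y : ℝ => y ^ (n + S.M)) (Icc p.1 p.2) := (continuous_pow _).continuousOn
    have h1 := intermediate_value_Icc hab.le hcont
    have h2 : Y + t * S.ℓ ∈ Icc (p.1 ^ (n + S.M)) (p.2 ^ (n + S.M)) := by
      constructor
      · have : 0 ≤ t * S.ℓ := by positivity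
        linarith
      · have : t * S.ℓ ≤ 3 * S.ℓ := mul_le_mul_of_nonneg_right ht3 hℓ0.le
        linarith
    obtain ⟨c, hc1, hc2⟩ := h1 h2
    exact ⟨c, hc1, hc2⟩
  obtain ⟨c0, hc0, e0⟩ := hivt 0 le_rfl (by norm_num)
  obtain ⟨c1, hc1, e1⟩ := hivt 1 (by norm_num) (by norm_num)
  obtain ⟨c2, hc2, e2⟩ := hivt 2 (by norm_num) (by norm_num)
  obtain ⟨c3, hc3, e3⟩ := hivt 3 (by norm_num) le_rfl
  have hlt : ∀ {u v : ℝ}, u ∈ Icc p.1 p.2 → v ∈ Icc p.1 p.2 → u ^ (n + S.M) < v ^ (n + S.M) → u < v := by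
    intro u v hu hv huv
    exact lt_of_pow_lt_pow_left₀ _ (by linarith [hv.1]) huv
  have l01 : c0 < c1 := hlt hc0 hc1 (by rw [e0, e1]; linarith)
  have l12 : c1 < c2 := hlt hc1 hc2 (by rw [e1, e2]; linarith)
  have l23 : c2 < c3 := hlt hc2 hc3 (by rw [e2, e3]; linarith)
  refine ⟨fun b => if b then (c2, c3) else (c0, c1), ?_, ?_, ?_, ?_⟩
  · intro b
    cases b with
    | false => exact ⟨ha.trans hc0.1, hc1.2.trans hb, l01, by simp only [Bool.false_eq_true, if_false]; rw [e0, e1]; ring⟩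
    | true => exact ⟨ha.trans hc2.1, hc3.2.trans hb, l23, by simp only [if_true]; rw [e2, e3]; ring⟩
  · intro b
    cases b with
    | false => exact ⟨hc0.1, hc1.2, S.ratio n hn hp hc0.1 l01.le hc1.2 (by simp only [Bool.false_eq_true, if_false]; rw [e0, e1]; ring)⟩
    | true => exact ⟨hc2.1, hc3.2, S.ratio n hn hp hc2.1 l23.le hc3.2 (by simp only [if_true]; rw [e2, e3]; ring)⟩
  · have h := S.ratio n hn hp hc1.1 l12.le hc2.2 (by rw [e1, e2]; ring)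
    simp only [Bool.false_eq_true, if_false, if_true]
    linarith
  · intro b x hx
    have hx0 : x ∈ Icc c0 c3 := by
      cases b with
      | false => exact ⟨hx.1, hx.2.trans (by simp only [Bool.false_eq_true, if_false]; linarith)⟩
      | true => exact ⟨le_trans (by simp only [if_true]; linarith) hx.1, hx.2⟩
    have hc0p : 0 ≤ c0 := by linarith [hc0.1]
    apply hfree x ⟨hc0.1.trans hx0.1, hx0.2.trans hc3.2⟩
    · have h1 : c0 ^ (n + S.M) ≤ x ^ (n + S.M) := pow_le_pow_left₀ hc0p hx0.1 _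
      rw [e0] at h1
      linarith
    · have h1 : x ^ (n + S.M) ≤ c3 ^ (n + S.M) := pow_le_pow_left₀ (hc0p.trans hx0.1) hx0.2 _
      rw [e3] at h1
      linarith

/-- nodes at level `m` -/
def Ndt (m : ℕ) := {p : ℝ × ℝ // S.Nd (1 + m * S.M) p}

theorem step_ex (m : ℕ) (p : S.Ndt m) : ∃ q : Bool → ℝ × ℝ, (∀ b, S.Nd (1 + m * S.M + S.M) (q b)) ∧
    (∀ b, p.1.1 ≤ (q b).1 ∧ (q b).2 ≤ p.1.2 ∧ (1 / (2 * S.K)) * (p.1.2 - p.1.1) ≤ (q b).2 - (q b).1) ∧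
    (q false).2 + (1 / (2 * S.K)) * (p.1.2 - p.1.1) ≤ (q true).1 ∧
    (∀ b, ∀ x ∈ Icc (q b).1 (q b).2, ∀ i, 1 ≤ i → i ≤ S.M → ∀ l : ℤ,
      S.δ ≤ |x ^ (1 + m * S.M + i) - S.ξ (1 + m * S.M + i) - l|) :=
  S.step (1 + m * S.M) (by omega) p.1 p.2

/-- child -/
noncomputable def nxt (m : ℕ) (p : S.Ndt m) (b : Bool) : S.Ndt (m + 1) :=
  ⟨(S.step_ex m p).choose b, by
    have h := (S.step_ex m p).choose_spec.1 b
    rw [Nat.succ_mul, ← add_assoc]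
    exact h⟩

/-- node of a sequence -/
noncomputable def nd : (m : ℕ) → Om → S.Ndt m
  | 0, _ => ⟨(S.x0, S.x0 + S.ℓ), S.hx0, S.hx1, by simp only; linarith [S.hℓ], by simp⟩
  | m + 1, x => S.nxt m (nd m x) (x m)

theorem nd_dep (m : ℕ) (x y : Om) (h : y ∈ cyl x m) : S.nd m y = S.nd m x := by
  induction m with
  | zero => rfl
  | succ m ih =>
    have h1 := ih (cyl_anti (Nat.le_succ m) h)
    show S.nxt m (S.nd m y) (y m) = S.nxt m (S.nd m x) (x m)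
    rw [h1, h m (Nat.lt_succ_self m)]

/-- the tree -/
noncomputable def tree : Tree where
  lo m x := (S.nd m x).1.1
  hi m x := (S.nd m x).1.2
  κ := 1 / (2 * S.K)
  g := 1 / (2 * S.K)
  hκ := by have := S.K_pos; positivity
  hg := by have := S.K_pos; positivity
  dep_lo m x y h := by rw [S.nd_dep m x y h]
  dep_hi m x y h := by rw [S.nd_dep m x y h]
  lt m x := (S.nd m x).2.2.2.1
  lo_le m x := ((S.step_ex m (S.nd m x)).choose_spec.2.1 (x m)).1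
  hi_le m x := ((S.step_ex m (S.nd m x)).choose_spec.2.1 (x m)).2.1
  ratio m x := ((S.step_ex m (S.nd m x)).choose_spec.2.1 (x m)).2.2
  gap m x := by
    have h := (S.step_ex m (S.nd m x)).choose_spec.2.2.1
    have e1 : S.nd m (Function.update x m false) = S.nd m x := S.nd_dep m _ _ (by
      intro i hi; rw [Function.update_of_ne hi.ne])
    have e2 : S.nd m (Function.update x m true) = S.nd m x := S.nd_dep m _ _ (by
      intro i hi; rw [Function.update_of_ne hi.ne])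
    show (S.nxt m (S.nd m (Function.update x m false)) (Function.update x m false m)).1.2 + _ ≤
      (S.nxt m (S.nd m (Function.update x m true)) (Function.update x m true m)).1.1
    rw [e1, e2, Function.update_self, Function.update_self]
    exact h

theorem pt_mem (z : Om) : S.θ ≤ S.tree.pt z ∧ S.tree.pt z ≤ S.Θ := by
  have h1 := S.tree.lo_le_pt 0 z
  have h2 := S.tree.pt_le_hi 0 z
  exact ⟨(S.nd 0 z).2.1.trans h1, h2.trans (S.nd 0 z).2.2.1⟩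

theorem avoid (z : Om) (n : ℕ) (hn : 1 ≤ n) (l : ℤ) : S.δ ≤ |S.tree.pt z ^ n - S.ξ n - l| := by
  rcases Nat.lt_or_ge n 2 with h | h
  · have : n = 1 := by omega
    subst this
    rw [pow_one]
    exact S.h1 _ ⟨S.tree.lo_le_pt 0 z, S.tree.pt_le_hi 0 z⟩ l
  · have hM : 0 < S.M := by
      rcases Nat.eq_zero_or_pos S.M with h0 | h0
      · have := S.hM
        rw [h0] at this
        norm_num at this
      · exact h0
    set m := (n - 2) / S.M with hm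
    set i := (n - 2) % S.M + 1 with hi
    have hn' : n = 1 + m * S.M + i := by
      have h1 := Nat.div_add_mod (n - 2) S.M
      rw [← hm, mul_comm S.M m] at h1
      omega
    have hi1 : i ≤ S.M := by
      have := Nat.mod_lt (n - 2) hM
      omega
    rw [hn']
    exact (S.step_ex m (S.nd m z)).choose_spec.2.2.2 (z m) (S.tree.pt z)
      ⟨S.tree.lo_le_pt (m + 1) z, S.tree.pt_le_hi (m + 1) z⟩ i (by omega) hi1 l

end Par

theorem exists_par (θ ε : ℝ) (hθ : 1 < θ) (hε : 0 < ε) (ξ : ℕ → ℝ) : ∃ S : Par, S.θ = θ ∧ S.Θ = θ + ε / 2 ∧ S.ξ = ξ := by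
  obtain ⟨M, hM⟩ : ∃ M : ℕ, 4 * ((M : ℝ) + 1) ≤ θ ^ M := by
    have h1 := tendsto_pow_const_div_const_pow_of_one_lt 1 hθ
    have h2 := tendsto_pow_const_div_const_pow_of_one_lt 0 hθ
    have h3 := (h1.add h2).const_mul 4
    simp only [pow_one, pow_zero, add_zero, mul_zero] at h3
    obtain ⟨M, hM⟩ := (h3.eventually (gt_mem_nhds (zero_lt_one (α := ℝ)))).exists
    refine ⟨M, ?_⟩
    have h4 : 0 < θ ^ M := by positivity
    have h5 : 4 * ((M : ℝ) / θ ^ M + 1 / θ ^ M) = 4 * ((M : ℝ) + 1) / θ ^ M := by ring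
    rw [h5, div_lt_one h4] at hM
    exact hM.le
  set Θ := θ + ε / 2 with hΘ
  set K : ℝ := ((M : ℝ) + 1) * Θ ^ M with hK
  have hK0 : 0 < K := by rw [hK]; positivity
  set f := Int.fract (θ - ξ 1) with hf
  have hf0 : 0 ≤ f := Int.fract_nonneg _
  have hf1 : 0 < 1 - f := by linarith [Int.fract_lt_one (θ - ξ 1)]
  have hff : ((⌊θ - ξ 1⌋ : ℤ) : ℝ) + f = θ - ξ 1 := Int.floor_add_fract _
  set t0 : ℝ := min (ε / 4) ((1 - f) / 2) with ht0
  have ht0pos : 0 < t0 := lt_min (by linarith) (by linarith)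
  have ht0a : t0 ≤ ε / 4 := min_le_left _ _
  have ht0b : t0 ≤ (1 - f) / 2 := min_le_right _ _
  set ℓ : ℝ := min (min ((1 - f) / 4) (ε / 4)) (1 / (4 * K)) with hℓ
  have hℓ0 : 0 < ℓ := lt_min (lt_min (by linarith) (by linarith)) (by positivity)
  have hℓa : ℓ ≤ (1 - f) / 4 := (min_le_left _ _).trans (min_le_left _ _)
  have hℓb : ℓ ≤ ε / 4 := (min_le_left _ _).trans (min_le_right _ _)
  have hℓc : ℓ ≤ 1 / (4 * K) := min_le_right _ _
  set δ : ℝ := min (min t0 ((1 - f) / 4)) (ℓ / (2 * K)) with hδ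
  have hδ0 : 0 < δ := lt_min (lt_min ht0pos (by linarith)) (by positivity)
  have hδa : δ ≤ t0 := (min_le_left _ _).trans (min_le_left _ _)
  have hδb : δ ≤ (1 - f) / 4 := (min_le_left _ _).trans (min_le_right _ _)
  have hδc : δ ≤ ℓ / (2 * K) := min_le_right _ _
  refine ⟨{ θ := θ, Θ := Θ, M := M, ξ := ξ, ℓ := ℓ, δ := δ, x0 := θ + t0, hθ := hθ, hx0 := by linarith,
            hx1 := by rw [hΘ]; linarith, hM := hM, hℓ := hℓ0, hℓ1 := ?_, hδ := hδ0, hδ1 := ?_, h1 := ?_ }, rfl, rfl, rfl⟩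
  · rw [le_div_iff₀ (by positivity)] at hℓc
    rw [← hK]
    linarith
  · rw [le_div_iff₀ (by positivity)] at hδc
    rw [← hK]
    linarith
  · intro x hx m
    rcases lt_or_ge ⌊θ - ξ 1⌋ m with h | h
    · have h1 : ((⌊θ - ξ 1⌋ : ℤ) : ℝ) + 1 ≤ m := by exact_mod_cast h
      refine le_trans ?_ (neg_le_abs _)
      linarith [hx.2]
    · have h1 : (m : ℝ) ≤ ((⌊θ - ξ 1⌋ : ℤ) : ℝ) := by exact_mod_cast h
      refine le_trans ?_ (le_abs_self _)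
      linarith [hx.1]

end Pool.Agent.Helper46.TB
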