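import Pool.Agent.Helper46.TB.Unif
import Pool.Agent.Helper46.TB.Scheme
import Pool.Agent.Helper46.TB.AC

/-!
# Assembly
-/

set_option autoImplicit false

namespace Pool.Agent.Helper46.TB

open Polynomial

theorem final (θ : ℝ) (hθ : 1 < θ) (ε : ℝ) (hε : 0 < ε) (ξ : ℕ → ℝ) :
    ∃ α : ℝ, 1 < α ∧ |α - θ| < ε ∧
      (∃ δ : ℝ, 0 < δ ∧ ∀ n : ℕ, 1 ≤ n → ∀ m : ℤ, δ ≤ |α ^ n - ξ n - m|) ∧ HasMult α ∧ HasUnif α := by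
  obtain ⟨S, hS1, hS2, hS3⟩ := exists_par θ ε hθ hε ξ
  obtain ⟨z, hz⟩ := (ae_good S.tree).exists
  obtain ⟨h1, h2⟩ := S.pt_mem z
  rw [hS1] at h1
  rw [hS2] at h2
  refine ⟨S.tree.pt z, lt_of_lt_of_le hθ h1, ?_, ⟨S.δ, S.hδ, fun n hn m => ?_⟩, hz.1, hz.2⟩
  · rw [abs_lt]; constructor <;> linarith
  · have := S.avoid z n hn m
    rwa [hS3] at this

end Pool.Agent.Helper46.TB
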