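import Pool.Agent.Helper46.TB.Tree

/-!
# Polynomials are good on trees of intervals

If a real polynomial of degree at most `D` is somewhere at least `R` on the parent interval, then it is smaller
than `η ^ D * R` only on a part of measure `≤ C η ^ s` of the interval.
-/

set_option autoImplicit false

namespace Pool.Agent.Helper46.TB

open MeasureTheory Set Polynomial

theorem norm_prod_map {ι : Type*} (f : ι → ℂ) (m : Multiset ι) :
    ‖(m.map f).prod‖ = (m.map fun z => ‖f z‖).prod := by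
  induction m using Multiset.induction_on with
  | empty => simp
  | cons a m ih => simp [ih]

theorem abs_eval_eq (f : ℝ[X]) (x : ℝ) :
    |f.eval x| = |f.leadingCoeff| *
      ((f.map (algebraMap ℝ ℂ)).roots.map fun z => ‖(x : ℂ) - z‖).prod := by
  have hs : (f.map (algebraMap ℝ ℂ)).Splits := IsAlgClosed.splits _
  have h := hs.eval_eq_prod_roots (x : ℂ)
  have h1 : (f.map (algebraMap ℝ ℂ)).eval (x : ℂ) = ((f.eval x : ℝ) : ℂ) := by
    have := Polynomial.eval_map_apply (p := f) (algebraMap ℝ ℂ) x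
    simpa using this
  rw [h1] at h
  have h2 : |f.eval x| = ‖((f.eval x : ℝ) : ℂ)‖ := by rw [Complex.norm_real, Real.norm_eq_abs]
  rw [h2, h, norm_mul, leadingCoeff_map, norm_prod_map]
  congr 1
  simp

theorem prod_le_prod_of_le (m : Multiset ℂ) (u v : ℂ → ℝ) (η : ℝ) (hη : 0 ≤ η) (hv : ∀ z ∈ m, 0 ≤ v z)
    (h : ∀ z ∈ m, η * v z ≤ u z) : η ^ (Multiset.card m) * (m.map v).prod ≤ (m.map u).prod := by
  induction m using Multiset.induction_on with
  | empty => simp
  | cons a m ih =>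
    simp only [Multiset.card_cons, Multiset.map_cons, Multiset.prod_cons]
    have h1 := ih (fun z hz => hv z (Multiset.mem_cons_of_mem hz)) fun z hz => h z (Multiset.mem_cons_of_mem hz)
    have h2 := h a (Multiset.mem_cons_self a m)
    have h3 : 0 ≤ (m.map v).prod := by
      apply Multiset.prod_nonneg
      intro b hb
      obtain ⟨z, hz, rfl⟩ := Multiset.mem_map.1 hb
      exact hv z (Multiset.mem_cons_of_mem hz)
    have h4 := hv a (Multiset.mem_cons_self a m)
    calc η ^ (Multiset.card m + 1) * (v a * (m.map v).prod)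
        = (η * v a) * (η ^ Multiset.card m * (m.map v).prod) := by ring
      _ ≤ u a * (m.map u).prod := by
          apply mul_le_mul h2 h1 (by positivity)
          exact (mul_nonneg hη h4).trans h2

/-- a relatively small value is taken only near (the real part of) a root -/
theorem root_near (f : ℝ[X]) (D : ℕ) (hD : f.natDegree ≤ D) (η : ℝ) (hη : 0 < η) (hη1 : η ≤ 1 / 2)
    (x x0 : ℝ) (h : |f.eval x| < η ^ D * |f.eval x0|) :
    ∃ z ∈ (f.map (algebraMap ℝ ℂ)).roots, |x - z.re| < 2 * η * |x - x0| := by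
  by_contra hcon
  push Not at hcon
  have hz : ∀ z ∈ (f.map (algebraMap ℝ ℂ)).roots, η * ‖(x0 : ℂ) - z‖ ≤ ‖(x : ℂ) - z‖ := by
    intro z hz
    have h1 := hcon z hz
    have h2 : |x - z.re| ≤ ‖(x : ℂ) - z‖ := by
      have := Complex.abs_re_le_norm ((x : ℂ) - z)
      simpa using this
    have h3 : ‖(x0 : ℂ) - z‖ ≤ |x - x0| + ‖(x : ℂ) - z‖ := by
      have h4 : (x0 : ℂ) - z = ((x0 - x : ℝ) : ℂ) + ((x : ℂ) - z) := by push_cast; ring
      rw [h4]
      refine (norm_add_le _ _).trans ?_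
      rw [Complex.norm_real, Real.norm_eq_abs, abs_sub_comm]
    have h5 : 0 ≤ |x - x0| := abs_nonneg _
    have h6 : 0 ≤ ‖(x : ℂ) - z‖ := norm_nonneg _
    nlinarith
  have hcard : Multiset.card (f.map (algebraMap ℝ ℂ)).roots ≤ D :=
    (Polynomial.card_roots' _).trans ((natDegree_map_le).trans hD)
  have h1 := prod_le_prod_of_le (f.map (algebraMap ℝ ℂ)).roots (fun z => ‖(x : ℂ) - z‖)
    (fun z => ‖(x0 : ℂ) - z‖) η hη.le (fun _ _ => norm_nonneg _) hz
  have h2 : η ^ D ≤ η ^ (Multiset.card (f.map (algebraMap ℝ ℂ)).roots) :=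
    pow_le_pow_of_le_one hη.le (by linarith) hcard
  have h3 : 0 ≤ ((f.map (algebraMap ℝ ℂ)).roots.map fun z => ‖(x0 : ℂ) - z‖).prod := by
    apply Multiset.prod_nonneg
    intro b hb
    obtain ⟨z, hz, rfl⟩ := Multiset.mem_map.1 hb
    exact norm_nonneg _
  rw [abs_eval_eq f x, abs_eval_eq f x0] at h
  have h4 : η ^ D * (|f.leadingCoeff| * ((f.map (algebraMap ℝ ℂ)).roots.map fun z => ‖(x0 : ℂ) - z‖).prod) ≤
      |f.leadingCoeff| * ((f.map (algebraMap ℝ ℂ)).roots.map fun z => ‖(x : ℂ) - z‖).prod := by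
    have h5 := mul_le_mul_of_nonneg_right h2 h3
    have h6 := mul_le_mul_of_nonneg_left (h5.trans h1) (abs_nonneg f.leadingCoeff)
    linarith
  linarith

namespace Tree

variable (T : Tree)

/-- parent interval -/
def par (n : ℕ) (x : Om) : Set ℝ := Icc (T.lo (n - 1) x) (T.hi (n - 1) x)

theorem dep_par {n : ℕ} {x y : Om} (h : y ∈ cyl x n) : T.par n y = T.par n x := by
  unfold par
  rw [T.dep_lo _ _ _ (cyl_anti (Nat.sub_le n 1) h), T.dep_hi _ _ _ (cyl_anti (Nat.sub_le n 1) h)]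

theorem par_len (n : ℕ) (x : Om) : T.hi (n - 1) x - T.lo (n - 1) x ≤ T.len n x / T.κ := by
  rw [le_div_iff₀ T.hκ]
  cases n with
  | zero =>
    have h1 := T.len_pos 0 x
    have h2 := T.κ_lt_one
    unfold len at *
    nlinarith
  | succ n =>
    have h := T.ratio n x
    unfold len
    simp only [Nat.add_sub_cancel]
    linarith

theorem pt_mem_par (n : ℕ) (x : Om) : T.pt x ∈ T.par n x := ⟨T.lo_le_pt _ x, T.pt_le_hi _ x⟩

/-- polynomials are good -/
theorem good : ∃ C : ℝ, 0 < C ∧ ∀ (D : ℕ) (f : ℝ[X]), f.natDegree ≤ D → ∀ (n : ℕ) (x : Om) (x0 : ℝ),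
    x0 ∈ T.par n x → ∀ η : ℝ, 0 < η → η ≤ 1 / 2 →
    P (cyl x n ∩ {z | |f.eval (T.pt z)| < η ^ D * |f.eval x0|}) ≤
      ENNReal.ofReal (((D : ℝ) + 1) * C * η ^ T.s) * P (cyl x n) := by
  obtain ⟨C, hC, hdec⟩ := T.decay
  have hk := T.hκ
  refine ⟨C * (2 / T.κ) ^ T.s, by positivity, ?_⟩
  intro D f hf n x x0 hx0 η hη hη1
  have hl := T.len_pos n x
  classical
  set Z := (f.map (algebraMap ℝ ℂ)).roots.toFinset with hZ
  have hsub : cyl x n ∩ {z | |f.eval (T.pt z)| < η ^ D * |f.eval x0|} ⊆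
      ⋃ w ∈ Z, (cyl x n ∩ {z | |T.pt z - w.re| < 2 * η * (T.len n x / T.κ)}) := by
    rintro z ⟨hz, hz2⟩
    obtain ⟨w, hw, hw2⟩ := root_near f D hf η hη hη1 (T.pt z) x0 hz2
    rw [mem_iUnion₂]
    refine ⟨w, by rw [hZ, Multiset.mem_toFinset]; exact hw, hz, ?_⟩
    refine hw2.trans_le ?_
    apply mul_le_mul_of_nonneg_left _ (by positivity)
    have h1 := T.pt_mem_par n z
    rw [T.dep_par hz] at h1
    have h2 := T.par_len n x
    rw [abs_le]
    constructor <;> linarith [h1.1, h1.2, hx0.1, hx0.2]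
  refine (measure_mono hsub).trans ((measure_biUnion_finset_le _ _).trans ?_)
  have hterm : ∀ w ∈ Z, P (cyl x n ∩ {z | |T.pt z - w.re| < 2 * η * (T.len n x / T.κ)}) ≤
      ENNReal.ofReal (C * (2 / T.κ) ^ T.s * η ^ T.s) * P (cyl x n) := by
    intro w _
    refine (hdec w.re (2 * η * (T.len n x / T.κ)) n x (by positivity)).trans (le_of_eq ?_)
    congr 2
    rw [mul_assoc C, ← Real.mul_rpow (by positivity) hη.le]
    congr 2
    field_simp
  refine (Finset.sum_le_sum hterm).trans ?_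
  rw [Finset.sum_const, nsmul_eq_mul, ← mul_assoc]
  gcongr
  have hcard : Z.card ≤ D := by
    rw [hZ]
    exact (Multiset.toFinset_card_le _).trans ((Polynomial.card_roots' _).trans ((natDegree_map_le).trans hf))
  calc (Z.card : ENNReal) * ENNReal.ofReal (C * (2 / T.κ) ^ T.s * η ^ T.s)
      = ENNReal.ofReal ((Z.card : ℝ) * (C * (2 / T.κ) ^ T.s * η ^ T.s)) := by
        rw [ENNReal.ofReal_mul (Nat.cast_nonneg _), ENNReal.ofReal_natCast]
    _ ≤ _ := by
        apply ENNReal.ofReal_le_ofReal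
        have h1 : (Z.card : ℝ) ≤ D + 1 := by
          have : (Z.card : ℝ) ≤ D := by exact_mod_cast hcard
          linarith
        calc (Z.card : ℝ) * (C * (2 / T.κ) ^ T.s * η ^ T.s)
            ≤ (D + 1) * (C * (2 / T.κ) ^ T.s * η ^ T.s) := by gcongr
          _ = _ := by ring

end Tree

end Pool.Agent.Helper46.TB
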