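import Pool.Agent.Helper46.TB.Good
import Pool.Agent.Helper46.TB.Wedge

/-!
# Lower bound for `Psi` on an interval
-/

set_option autoImplicit false

namespace Pool.Agent.Helper46.TB

open Set Polynomial Matrix

variable {k : ℕ}

/-- the constant in the lower bound -/
noncomputable def low (k : ℕ) (a b : ℝ) : ℝ := min 1 ((b - a) / (2 * (k + 1)))

theorem low_pos (k : ℕ) {a b : ℝ} (h : a < b) : 0 < low k a b :=
  lt_min one_pos (div_pos (sub_pos.2 h) (by positivity))

theorem low_le_one (k : ℕ) (a b : ℝ) : low k a b ≤ 1 := min_le_left _ _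

theorem exists_large (f : ℝ[X]) (hf : f.natDegree ≤ k) (hl : 1 ≤ |f.leadingCoeff|) {a b : ℝ} (hab : a < b) :
    ∃ y ∈ Icc a b, low k a b ^ k ≤ |f.eval y| := by
  classical
  set h : ℝ := (b - a) / (2 * (k + 1)) with hh
  have hpos : 0 < h := div_pos (sub_pos.2 hab) (by positivity)
  have hL : 2 * (k + 1) * h = b - a := by
    rw [hh]; field_simp
  set y : Fin (k + 1) → ℝ := fun j => a + (2 * (j : ℝ) + 1) * h with hy
  have hyI : ∀ j, y j ∈ Icc a b := by
    intro j
    have h1 : ((j : ℕ) : ℝ) ≤ k := by exact_mod_cast Nat.lt_succ_iff.1 j.2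
    have h0 : (0 : ℝ) ≤ ((j : ℕ) : ℝ) := Nat.cast_nonneg _
    constructor
    · simp only [hy]
      nlinarith
    · simp only [hy]
      nlinarith
  have hex : ∃ j, ∀ z ∈ (f.map (algebraMap ℝ ℂ)).roots, h ≤ |y j - z.re| := by
    by_contra hcon
    push Not at hcon
    choose z hz1 hz2 using hcon
    have hinj : Function.Injective z := by
      intro i j hij
      by_contra hne
      have h1 := hz2 i
      have h2 := hz2 j
      rw [hij] at h1
      have h3 : |y i - y j| < 2 * h := by
        have : y i - y j = (y i - (z j).re) - (y j - (z j).re) := by ring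
        rw [this]
        refine (abs_sub _ _).trans_lt ?_
        linarith
      have h4 : y i - y j = 2 * h * ((i : ℝ) - (j : ℝ)) := by simp only [hy]; ring
      rw [h4, abs_mul, abs_of_pos (by positivity : (0 : ℝ) < 2 * h)] at h3
      have h5 : (1 : ℝ) ≤ |((i : ℕ) : ℝ) - ((j : ℕ) : ℝ)| := by
        have h6 : ((i : ℕ) : ℤ) - ((j : ℕ) : ℤ) ≠ 0 := by
          intro h7
          apply hne
          apply Fin.ext
          omega
        have h7 := Int.one_le_abs h6
        have h8 : ((1 : ℤ) : ℝ) ≤ ((|((i : ℕ) : ℤ) - ((j : ℕ) : ℤ)| : ℤ) : ℝ) := by exact_mod_cast h7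
        simpa using h8
      nlinarith
    have hcard : (Finset.univ.image z).card ≤ (f.map (algebraMap ℝ ℂ)).roots.toFinset.card := by
      apply Finset.card_le_card
      intro w hw
      obtain ⟨j, _, rfl⟩ := Finset.mem_image.1 hw
      exact Multiset.mem_toFinset.2 (hz1 j)
    rw [Finset.card_image_of_injective _ hinj, Finset.card_univ, Fintype.card_fin] at hcard
    have h1 := (Multiset.toFinset_card_le _).trans ((Polynomial.card_roots' (f.map (algebraMap ℝ ℂ))).trans
      ((natDegree_map_le).trans hf))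
    omega
  obtain ⟨j, hj⟩ := hex
  refine ⟨y j, hyI j, ?_⟩
  rw [abs_eval_eq]
  have h1 := prod_le_prod_of_le (f.map (algebraMap ℝ ℂ)).roots (fun z => ‖((y j : ℝ) : ℂ) - z‖)
    (fun _ => 1) (low k a b) (low_pos k hab).le (fun _ _ => zero_le_one) (by
      intro z hz
      rw [mul_one]
      refine (min_le_right _ _).trans ((hj z hz).trans ?_)
      have := Complex.abs_re_le_norm (((y j : ℝ) : ℂ) - z)
      simpa using this)
  have h2 : low k a b ^ k ≤ low k a b ^ (Multiset.card (f.map (algebraMap ℝ ℂ)).roots) := by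
    apply pow_le_pow_of_le_one (low_pos k hab).le (low_le_one k a b)
    exact (Polynomial.card_roots' _).trans ((natDegree_map_le).trans hf)
  simp only [Multiset.map_const', Multiset.prod_replicate, one_pow, mul_one] at h1
  have h3 := h2.trans h1
  have h4 : 0 ≤ ((f.map (algebraMap ℝ ℂ)).roots.map fun z => ‖((y j : ℝ) : ℂ) - z‖).prod :=
    (pow_nonneg (low_pos k hab).le k).trans h3
  nlinarith

/-- rational vector -/
def toQ (v : Fin (k + 1) → ℤ) : Fin (k + 1) → ℚ := fun c => (v c : ℚ)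

theorem exists_minor {r : ℕ} (u : Fin r → Fin (k + 1) → ℤ) (hu : LinearIndependent ℚ fun i => toQ (u i)) :
    ∃ β : Fin r → Fin (k + 1), det (of fun i j => u i (β j)) ≠ 0 := by
  classical
  set A : Matrix (Fin r) (Fin (k + 1)) ℚ := of fun i c => (u i c : ℚ) with hA
  have hrow : LinearIndependent ℚ A.row := hu
  have hrank : A.rank = r := by rw [hrow.rank_matrix, Fintype.card_fin]
  rw [Matrix.rank_eq_finrank_span_cols] at hrank
  obtain ⟨f, hf, -, hli⟩ := Submodule.exists_fun_fin_finrank_span_eq ℚ (Set.range A.col)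
  choose β0 hβ0 using hf
  refine ⟨fun j => β0 (Fin.cast hrank.symm j), ?_⟩
  have h1 := hli.comp (Fin.cast hrank.symm) (Fin.cast_injective _)
  have h2 : LinearIndependent ℚ (A.submatrix id fun j => β0 (Fin.cast hrank.symm j))ᵀ.row := by
    have : (A.submatrix id fun j => β0 (Fin.cast hrank.symm j))ᵀ.row = f ∘ Fin.cast hrank.symm := by
      funext j
      rw [Function.comp_apply, ← hβ0]
      rfl
    rw [this]
    exact h1
  have h3 := ((Matrix.isUnit_iff_isUnit_det _).mp (linearIndependent_rows_iff_isUnit.mp h2)).ne_zero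
  rw [det_transpose] at h3
  intro h4
  apply h3
  have h5 : (A.submatrix id fun j => β0 (Fin.cast hrank.symm j)) =
      (of fun i j => u i (β0 (Fin.cast hrank.symm j))).map (Int.cast : ℤ → ℚ) := by
    ext i j
    simp [hA]
  have h6 : (((of fun i j => u i (β0 (Fin.cast hrank.symm j))).det : ℤ) : ℚ) =
      ((of fun i j => u i (β0 (Fin.cast hrank.symm j))).map (Int.cast : ℤ → ℚ)).det :=
    Int.cast_det (R := ℚ) _
  rw [h5, ← h6, h4]
  simp

theorem exists_minor' {r : ℕ} (u : Fin (r + 1) → Fin (k + 1) → ℤ)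
    (hu : LinearIndependent ℚ fun i => toQ (u i)) :
    ∃ β : Fin (r + 1) → Fin (k + 1), Function.Injective β ∧ (∀ j : Fin r, β j.succ ≠ 0) ∧
      det (of fun i j => u i (β j)) ≠ 0 := by
  classical
  obtain ⟨β, hβ⟩ := exists_minor u hu
  have hinj : Function.Injective β := by
    intro i j hij
    by_contra hne
    apply hβ
    apply det_zero_of_column_eq hne
    intro l
    simp [hij]
  by_cases h0 : ∃ j, β j = 0
  · obtain ⟨j0, hj0⟩ := h0
    refine ⟨fun j => β (Equiv.swap 0 j0 j), hinj.comp (Equiv.injective _), fun j hj => ?_, ?_⟩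
    · have h1 : Equiv.swap 0 j0 j.succ = j0 := hinj (hj.trans hj0.symm)
      have h2 : Equiv.swap (0 : Fin (r + 1)) j0 (Equiv.swap 0 j0 j.succ) = Equiv.swap 0 j0 j0 := by rw [h1]
      rw [Equiv.swap_apply_self, Equiv.swap_apply_right] at h2
      exact Fin.succ_ne_zero j h2
    · have h1 : (of fun i j => u i (β (Equiv.swap 0 j0 j))) =
          (of fun i j => u i (β j)).submatrix id (Equiv.swap (0 : Fin (r + 1)) j0) := by
        ext i j; rfl
      rw [h1, det_permute']
      intro h2
      rcases mul_eq_zero.1 h2 with h3 | h3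
      · have := (Equiv.Perm.sign (Equiv.swap (0 : Fin (r + 1)) j0)).isUnit.ne_zero
        exact this h3
      · exact hβ h3
  · push Not at h0
    exact ⟨β, hinj, fun j => h0 _, hβ⟩

theorem tv_of_ne_zero (A : ℝ) (B : Fin (k + 1) → ℝ) (x : ℝ) (v : Fin (k + 1) → ℤ) {c : Fin (k + 1)} (hc : c ≠ 0) :
    tv A B x v c = B c * (v c : ℝ) := by
  obtain ⟨i, rfl⟩ := Fin.exists_succ_eq.2 hc
  simp [tv]

theorem tv_zero (A : ℝ) (B : Fin (k + 1) → ℝ) (x : ℝ) (v : Fin (k + 1) → ℤ) :
    tv A B x v 0 = A * ∑ c : Fin (k + 1), (v c : ℝ) * x ^ (c : ℕ) := by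
  simp [tv]

theorem det_formula (A : ℝ) (B : Fin (k + 1) → ℝ) (x : ℝ) {r : ℕ} (u : Fin (r + 1) → Fin (k + 1) → ℤ) (J : Fin r → Fin (k + 1))
    (hJ : ∀ j, J j ≠ 0) :
    det (of fun i j => tv A B x (u i) ((Fin.cons 0 J : Fin (r + 1) → Fin (k + 1)) j)) =
      A * (∏ j, B (J j)) * ∑ c : Fin (k + 1), ((det (of fun i j => u i ((Fin.cons c J : Fin (r + 1) → Fin (k + 1)) j)) : ℤ) : ℝ) *
        x ^ (c : ℕ) := by
  rw [det_succ_column_zero]
  have hD : ∀ c : Fin (k + 1), ((det (of fun i j => u i ((Fin.cons c J : Fin (r + 1) → Fin (k + 1)) j)) : ℤ) : ℝ) =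
      ∑ i : Fin (r + 1), (-1) ^ (i : ℕ) * (u i c : ℝ) *
        ((det (of fun i' j => u (i.succAbove i') (J j)) : ℤ) : ℝ) := by
    intro c
    rw [det_succ_column_zero]
    push_cast
    refine Finset.sum_congr rfl fun i _ => ?_
    simp only [of_apply, Fin.cons_zero]
    congr 2
  have hm : ∀ i : Fin (r + 1), det ((of fun i j => tv A B x (u i) ((Fin.cons 0 J : Fin (r + 1) → Fin (k + 1)) j)).submatrix
      i.succAbove Fin.succ) = (∏ j, B (J j)) * ((det (of fun i' j => u (i.succAbove i') (J j)) : ℤ) : ℝ) := by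
    intro i
    have h1 : ((of fun i j => tv A B x (u i) ((Fin.cons 0 J : Fin (r + 1) → Fin (k + 1)) j)).submatrix
      i.succAbove Fin.succ) = of fun i' j => B (J j) *
        ((of fun i' j => u (i.succAbove i') (J j)).map (Int.cast : ℤ → ℝ)) i' j := by
      ext i' j
      simp only [submatrix_apply, of_apply, Fin.cons_succ, map_apply]
      rw [tv_of_ne_zero _ _ _ _ (hJ j)]
    rw [h1, det_mul_row]
    congr 1
    exact (Int.cast_det (R := ℝ) _).symm
  simp only [hm, hD, of_apply, Fin.cons_zero, tv_zero]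
  simp only [Finset.mul_sum, Finset.sum_mul]
  rw [Finset.sum_comm]
  refine Finset.sum_congr rfl fun i _ => Finset.sum_congr rfl fun c _ => by ring

/-- lower bound for `Psi` somewhere on the interval -/
theorem Psi_lower (A : ℝ) (B : Fin (k + 1) → ℝ) (hB : ∀ c, 0 < B c) (hB1 : ∀ c, B c ≤ 1) (hA : 0 < A)
    (hAB : 1 ≤ A * ∏ j : Fin k, B j.succ) {r : ℕ}
    (u : Fin (r + 1) → Fin (k + 1) → ℤ)
    (hu : LinearIndependent ℚ fun i => toQ (u i)) {a b : ℝ} (hab : a < b) :
    ∃ y ∈ Icc a b, (low k a b ^ k) ^ 2 ≤ Psi A B y u := by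
  classical
  obtain ⟨β, hβinj, hβ1, hβ2⟩ := exists_minor' u hu
  set J : Fin r → Fin (k + 1) := fun j => β j.succ with hJ
  set D : Fin (k + 1) → ℤ := fun c => det (of fun i j => u i ((Fin.cons c J : Fin (r + 1) → Fin (k + 1)) j)) with hD
  set p : ℤ[X] := ∑ c : Fin (k + 1), C (D c) * X ^ (c : ℕ) with hp
  have hcoeff : p.coeff (β 0 : ℕ) = D (β 0) := by
    rw [hp, finsetSum_coeff]
    rw [Finset.sum_eq_single (β 0)]
    · simp
    · intro c _ hc
      rw [coeff_C_mul, coeff_X_pow, if_neg, mul_zero]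
      intro h
      exact hc (Fin.ext h.symm)
    · simp
  have hD0 : D (β 0) ≠ 0 := by
    rw [hD]
    simp only
    have : (Fin.cons (β 0) J : Fin (r + 1) → Fin (k + 1)) = β := by
      rw [hJ]; exact Fin.cons_self_tail β
    rw [this]
    exact hβ2
  have hp0 : p ≠ 0 := by
    intro h
    rw [h, coeff_zero] at hcoeff
    exact hD0 hcoeff.symm
  have hdeg : p.natDegree ≤ k := by
    refine natDegree_sum_le_of_forall_le _ _ fun c _ => ?_
    exact (natDegree_C_mul_X_pow_le _ _).trans (Nat.lt_succ_iff.1 c.2)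
  set f : ℝ[X] := p.map (Int.castRingHom ℝ) with hf
  have hinj : Function.Injective (Int.castRingHom ℝ) := Int.cast_injective
  have hlead : f.leadingCoeff = (p.leadingCoeff : ℝ) := by
    rw [hf, leadingCoeff_map_of_injective hinj]; rfl
  have hl1 : 1 ≤ |f.leadingCoeff| := by
    rw [hlead]
    have := Int.one_le_abs (leadingCoeff_ne_zero.2 hp0)
    exact_mod_cast this
  obtain ⟨y, hy, hy2⟩ := exists_large (k := k) f ((natDegree_map_le).trans hdeg) hl1 hab
  refine ⟨y, hy, ?_⟩
  have h1 : (det (of fun i j => tv A B y (u i) ((Fin.cons 0 J : Fin (r + 1) → Fin (k + 1)) j))) ^ 2 ≤ Psi A B y u := by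
    unfold Psi
    exact Finset.single_le_sum (f := fun σ : Fin (r + 1) → Fin (k + 1) =>
      (det (of fun i j => tv A B y (u i) (σ j))) ^ 2) (fun _ _ => sq_nonneg _)
      (Finset.mem_univ (Fin.cons 0 J : Fin (r + 1) → Fin (k + 1)))
  refine le_trans ?_ h1
  rw [det_formula A B y u J hβ1]
  have h2 : ∑ c : Fin (k + 1), ((det (of fun i j => u i ((Fin.cons c J : Fin (r + 1) → Fin (k + 1)) j)) : ℤ) : ℝ) *
        y ^ (c : ℕ) = f.eval y := by
    rw [hf, hp, Polynomial.map_sum, eval_finsetSum]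
    refine Finset.sum_congr rfl fun c _ => ?_
    simp [hD]
  rw [h2]
  have hJinj : Function.Injective J := fun a b hab => Fin.succ_injective _ (hβinj hab)
  have h3 : 1 ≤ A * ∏ j, B (J j) := by
    refine hAB.trans ?_
    apply mul_le_mul_of_nonneg_left _ hA.le
    have e1 : ∏ j : Fin k, B j.succ = ∏ c ∈ Finset.univ.erase (0 : Fin (k + 1)), B c := by
      have e2 : Finset.univ.erase (0 : Fin (k + 1)) = Finset.univ.image (Fin.succ : Fin k → Fin (k + 1)) := by
        ext c
        simp only [Finset.mem_erase, Finset.mem_univ, and_true, Finset.mem_image, true_and]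
        exact Fin.exists_succ_eq.symm
      rw [e2, Finset.prod_image (fun a _ b _ h => Fin.succ_injective _ h)]
    have e3 : ∏ j, B (J j) = ∏ c ∈ Finset.univ.image J, B c := by
      rw [Finset.prod_image (fun a _ b _ h => hJinj h)]
    have e4 : Finset.univ.image J ⊆ Finset.univ.erase (0 : Fin (k + 1)) := by
      intro c hc
      obtain ⟨j, _, rfl⟩ := Finset.mem_image.1 hc
      exact Finset.mem_erase.2 ⟨hβ1 j, Finset.mem_univ _⟩
    rw [e1, e3, ← Finset.prod_sdiff e4]
    apply mul_le_of_le_one_left (Finset.prod_nonneg fun c _ => (hB c).le)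
    exact Finset.prod_le_one (fun c _ => (hB c).le) fun c _ => hB1 c
  have hpos : 0 < A * ∏ j, B (J j) := mul_pos hA (Finset.prod_pos fun j _ => hB _)
  rw [← sq_abs (A * (∏ j, B (J j)) * f.eval y), abs_mul, abs_of_pos hpos]
  apply pow_le_pow_left₀ (pow_nonneg (low_pos k hab).le k)
  have h4 := abs_nonneg (f.eval y)
  nlinarith

end Pool.Agent.Helper46.TB
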