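import Pool.Agent.Helper46.TB.Sub

/-!
# Almost every point of a tree has the best possible transcendence measure in each degree
-/

set_option autoImplicit false

namespace Pool.Agent.Helper46.TB

open MeasureTheory Set Polynomial Matrix Module

variable {k : ℕ}

/-- the level `R` -/
noncomputable def RR (T : Tree) (k : ℕ) : ℝ :=
  (low k (T.lo 0 (fun _ => false)) (T.hi 0 (fun _ => false)) ^ k) ^ 2

theorem RR_pos (T : Tree) (k : ℕ) : 0 < RR T k := by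
  have := low_pos k (T.lt 0 (fun _ => false))
  unfold RR; positivity

theorem RR_le_one (T : Tree) (k : ℕ) : RR T k ≤ 1 := by
  have h1 := low_pos k (T.lt 0 (fun _ => false))
  have h2 := low_le_one k (T.lo 0 (fun _ => false)) (T.hi 0 (fun _ => false))
  unfold RR
  exact pow_le_one₀ (pow_nonneg h1.le _) (pow_le_one₀ h1.le h2)

theorem Psi_lower' (A : ℝ) (B : Fin (k + 1) → ℝ) (hB : ∀ c, 0 < B c) (hB1 : ∀ c, B c ≤ 1) (hA : 0 < A)
    (hAB : 1 ≤ A * ∏ j : Fin k, B j.succ) {a b : ℝ} (hab : a < b) :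
    ∀ (n : ℕ) (u : Fin n → Fin (k + 1) → ℤ) (_ : 1 ≤ n) (_ : LinearIndependent ℚ fun i => toQ (u i)), ∃ y ∈ Icc a b, (low k a b ^ k) ^ 2 ≤ Psi A B y u := by
  intro n u h1 hu
  obtain ⟨r, rfl⟩ := Nat.exists_eq_add_of_le' h1
  exact Psi_lower A B hB hB1 hA hAB u hu hab

/-- the degree in the goodness estimate -/
def DD (k : ℕ) : ℕ := 2 * ((k + 1) * k)

theorem meas (T : Tree) : ∃ C : ℝ, 0 < C ∧ ∀ (k : ℕ) (A : ℝ) (B : Fin (k + 1) → ℝ), (∀ c, 0 < B c) →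
    (∀ c, B c ≤ 1) → 0 < A → 1 ≤ A * ∏ j : Fin k, B j.succ →
    ∀ η : ℝ, 0 < η → η ≤ 1 / 2 →
    P {z | ∃ v : Fin (k + 1) → ℤ, v ≠ 0 ∧ ((k : ℝ) + 1) ^ 2 * nrm A B (T.pt z) v < η ^ DD k * RR T k} ≤
      ENNReal.ofReal (C * ((k : ℝ) + 1) ^ 3 * η ^ T.s) := by
  obtain ⟨C, hC, hgood⟩ := T.good
  refine ⟨2 * C, by positivity, ?_⟩
  intro k A B hB hB1 hA hAB η hη hη1
  have hR0 := RR_pos T k
  have hR1 := RR_le_one T k
  have hη2 : η ^ DD k ≤ 1 := pow_le_one₀ hη.le (by linarith)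
  set R := RR T k with hRdef
  set E := η ^ DD k * R with hE
  have hER : E ≤ R := by rw [hE]; nlinarith
  have hcont : ∀ V : Wt k, Continuous (fV A B V) := fun V => continuous_Psi A B _
  have hkm := km T (fV (k := k) A B) R E hcont (ENNReal.ofReal (((DD k : ℕ) + 1) * C * η ^ T.s)) (by
    rintro V n x ⟨y, hy, hRy⟩
    have h1 := hgood (DD k) (PsiP A B (bs V.1)) (by
      refine (natDegree_PsiP _ _ _).trans ?_
      unfold DD
      exact Nat.mul_le_mul_left 2 (Nat.mul_le_mul_right k (finrank_le V.1))) n x y hy η hη hη1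
    refine (measure_mono ?_).trans h1
    rintro z ⟨hz, hz2⟩
    refine ⟨hz, ?_⟩
    show |(PsiP A B (bs V.1)).eval (T.pt z)| < η ^ DD k * |(PsiP A B (bs V.1)).eval y|
    rw [eval_PsiP, eval_PsiP, abs_of_nonneg (Psi_nonneg _ _ _ _), abs_of_nonneg (Psi_nonneg _ _ _ _)]
    have hz3 : Psi A B (T.pt z) (bs V.1) < E := hz2
    have hRy' : R ≤ Psi A B y (bs V.1) := hRy
    refine hz3.trans_le ?_
    rw [hE]
    exact mul_le_mul_of_nonneg_left hRy' (pow_nonneg hη.le _)) (k + 1) chain_card (by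
    intro V x
    have h0 : T.par 0 x = Icc (T.lo 0 (fun _ => false)) (T.hi 0 (fun _ => false)) := by
      unfold Tree.par
      rw [T.dep_lo 0 (fun _ => false) x (by intro i hi; omega), T.dep_hi 0 (fun _ => false) x (by intro i hi; omega)]
    rw [h0]
    exact Psi_lower' A B hB hB1 hA hAB (T.lt 0 _) _ (bs V.1) (one_le_finrank V) (bs_li V.1))
  refine (measure_mono ?_).trans (hkm.trans ?_)
  · rintro z ⟨v, hv, hz⟩ hm
    exact absurd (no_short T A B R E hR1 hER z hm v hv) (not_le.2 hz)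
  · rw [← ENNReal.ofReal_natCast, ← ENNReal.ofReal_mul (by positivity)]
    apply ENNReal.ofReal_le_ofReal
    have h1 : ((DD k : ℕ) : ℝ) + 1 ≤ 2 * ((k : ℝ) + 1) ^ 2 := by
      unfold DD
      push_cast
      have : (0 : ℝ) ≤ k := Nat.cast_nonneg k
      nlinarith
    push_cast
    calc ((k : ℝ) + 1) * ((((DD k : ℕ) : ℝ) + 1) * C * η ^ T.s)
        ≤ ((k : ℝ) + 1) * ((2 * ((k : ℝ) + 1) ^ 2) * C * η ^ T.s) := by gcongr
      _ = _ := by ring

/-- the weights -/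
noncomputable def wt (t : Fin k → ℕ) : Fin (k + 1) → ℝ := Fin.cons 1 (fun i => Real.exp (-(t i : ℝ)))

theorem wt_succ (t : Fin k → ℕ) (i : Fin k) : wt t i.succ = Real.exp (-(t i : ℝ)) := by simp [wt]

theorem wt_pos (t : Fin k → ℕ) (c : Fin (k + 1)) : 0 < wt t c := by
  refine Fin.cases ?_ (fun i => ?_) c
  · simp [wt]
  · rw [wt_succ]; exact Real.exp_pos _

theorem wt_le (t : Fin k → ℕ) (c : Fin (k + 1)) : wt t c ≤ 1 := by
  refine Fin.cases ?_ (fun i => ?_) c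
  · simp [wt]
  · rw [wt_succ, Real.exp_le_one_iff]
    linarith [Nat.cast_nonneg (α := ℝ) (t i)]

theorem RR_lower (T : Tree) : ∃ m : ℕ, ∀ k : ℕ, 1 ≤ k → 1 / ((k : ℝ) + 1) ^ (2 * k * (m + 1)) ≤ RR T k := by
  set a := T.lo 0 (fun _ => false)
  set b := T.hi 0 (fun _ => false)
  have hab : a < b := T.lt 0 _
  have h1 : 0 < min 1 ((b - a) / 2) := lt_min one_pos (by linarith)
  obtain ⟨m, hm⟩ := exists_pow_lt_of_lt_one h1 (by norm_num : (1 / 2 : ℝ) < 1)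
  refine ⟨m, fun k hk => ?_⟩
  have hk1 : (2 : ℝ) ≤ (k : ℝ) + 1 := by
    have : (1 : ℝ) ≤ k := by exact_mod_cast hk
    linarith
  have h2 : 1 / ((k : ℝ) + 1) ^ (m + 1) ≤ low k a b := by
    have h3 : 1 / ((k : ℝ) + 1) ^ m ≤ (1 / 2) ^ m := by
      rw [_root_.one_div_pow]
      exact one_div_le_one_div_of_le (by positivity) (pow_le_pow_left₀ (by norm_num) hk1 m)
    have h4 : 1 / ((k : ℝ) + 1) ≤ 1 := by
      rw [div_le_one (by positivity)]; linarith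
    have h5 : 1 / ((k : ℝ) + 1) ^ (m + 1) = 1 / ((k : ℝ) + 1) ^ m * (1 / ((k : ℝ) + 1)) := by
      rw [pow_succ]; field_simp
    have h6 : 0 ≤ 1 / ((k : ℝ) + 1) := by positivity
    unfold low
    apply le_min
    · rw [h5]
      apply mul_le_one₀ _ h6 h4
      exact h3.trans (pow_le_one₀ (by norm_num) (by norm_num))
    · rw [h5]
      calc 1 / ((k : ℝ) + 1) ^ m * (1 / ((k : ℝ) + 1)) ≤ (b - a) / 2 * (1 / ((k : ℝ) + 1)) := by
            apply mul_le_mul_of_nonneg_right _ h6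
            exact h3.trans (hm.le.trans (min_le_right _ _))
        _ = (b - a) / (2 * ((k : ℝ) + 1)) := by field_simp
  have h3 : 0 ≤ 1 / ((k : ℝ) + 1) ^ (m + 1) := by positivity
  unfold RR
  rw [← pow_mul]
  refine le_trans (le_of_eq ?_) (pow_le_pow_left₀ h3 h2 (k * 2))
  rw [div_pow, one_pow, ← pow_mul]
  congr 2
  ring

/-- Borel–Cantelli, uniform in the degree -/
theorem ae_large (T : Tree) : ∃ K : ℕ, ∀ᵐ z ∂P, ∃ t0 : ℕ, ∀ k : ℕ, 1 ≤ k → ∀ t : ℕ, t0 ≤ t →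
    ∀ u : Fin k → ℕ, (∀ i, u i ≤ t) → ∀ v : Fin (k + 1) → ℤ, v ≠ 0 →
      1 / (((k : ℝ) + 1) * ((t : ℝ) + 1)) ^ (K * (k + 1) ^ 3) ≤
        ((k : ℝ) + 1) ^ 2 * nrm (Real.exp (∑ i, (u i : ℝ))) (wt u) (T.pt z) v := by
  obtain ⟨C, hC, hm⟩ := meas T
  obtain ⟨m, hRR⟩ := RR_lower T
  have hs := T.s_pos
  obtain ⟨q, hq⟩ := exists_nat_ge (3 / T.s)
  have hqs : 3 ≤ q * T.s := by rwa [div_le_iff₀ hs] at hq
  refine ⟨2 * q + 2 * m + 4, ?_⟩
  set η : ℕ → ℕ → ℝ := fun k t => (1 / 2) / (((k : ℝ) + 1) * ((t : ℝ) + 1)) ^ (q * (k + 2)) with hη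
  have hbase : ∀ k t : ℕ, (1 : ℝ) ≤ ((k : ℝ) + 1) * ((t : ℝ) + 1) := fun k t => by
    have h1 : (0 : ℝ) ≤ k := Nat.cast_nonneg k
    have h2 : (0 : ℝ) ≤ t := Nat.cast_nonneg t
    nlinarith
  have hη0 : ∀ k t, 0 < η k t := fun k t => by simp only [hη]; positivity
  have hη1 : ∀ k t, η k t ≤ 1 / 2 := fun k t => by
    simp only [hη]
    apply div_le_self (by norm_num)
    exact one_le_pow₀ (hbase k t)
  have hηs : ∀ k t, η k t ^ T.s ≤ 1 / (((k : ℝ) + 1) * ((t : ℝ) + 1)) ^ (3 * (k + 2)) := fun k t => by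
    simp only [hη]
    rw [Real.div_rpow (by norm_num) (by positivity)]
    apply div_le_div₀ zero_le_one (Real.rpow_le_one (by norm_num) (by norm_num) hs.le) (by positivity)
    rw [← Real.rpow_natCast, ← Real.rpow_natCast, ← Real.rpow_mul (by positivity)]
    apply Real.rpow_le_rpow_of_exponent_le (hbase k t)
    push_cast
    have : (0 : ℝ) ≤ k := Nat.cast_nonneg k
    nlinarith
  set S1 : ∀ k : ℕ, ℕ → (Fin k → ℕ) → Set Om := fun k t u => {z | ∃ v : Fin (k + 1) → ℤ, v ≠ 0 ∧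
    ((k : ℝ) + 1) ^ 2 * nrm (Real.exp (∑ i, (u i : ℝ))) (wt u) (T.pt z) v < η k t ^ DD k * RR T k} with hS1
  set S : ℕ × ℕ → Set Om := fun i =>
    ⋃ u ∈ Fintype.piFinset (fun _ : Fin i.1 => Finset.range (i.2 + 1)), S1 i.1 i.2 u with hS
  have hle1 : ∀ k t u, P (S1 k t u) ≤
      ENNReal.ofReal (C * ((k : ℝ) + 1) ^ 3 * (1 / (((k : ℝ) + 1) * ((t : ℝ) + 1)) ^ (3 * (k + 2)))) := fun k t u => by
    refine (hm k (Real.exp (∑ i, (u i : ℝ))) (wt u) (wt_pos u) (wt_le u) (Real.exp_pos _) ?_ (η k t) (hη0 k t)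
      (hη1 k t)).trans ?_
    · simp only [wt_succ]
      rw [← Real.exp_sum, ← Real.exp_add]
      apply le_of_eq
      rw [Finset.sum_neg_distrib, add_neg_cancel, Real.exp_zero]
    · apply ENNReal.ofReal_le_ofReal
      exact mul_le_mul_of_nonneg_left (hηs k t) (by positivity)
  have hle : ∀ i : ℕ × ℕ, P (S i) ≤ ENNReal.ofReal (C * (1 / ((i.1 : ℝ) + 1) ^ 2 * (1 / ((i.2 : ℝ) + 1) ^ 2))) := by
    rintro ⟨k, t⟩
    refine (measure_biUnion_finset_le _ _).trans ((Finset.sum_le_sum fun u _ => hle1 k t u).trans ?_)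
    rw [Finset.sum_const, Fintype.card_piFinset]
    simp only [Finset.card_range, Finset.prod_const, Finset.card_univ, Fintype.card_fin]
    rw [nsmul_eq_mul, ← ENNReal.ofReal_natCast, ← ENNReal.ofReal_mul (by positivity)]
    apply ENNReal.ofReal_le_ofReal
    have hk : (1 : ℝ) ≤ (k : ℝ) + 1 := by linarith [Nat.cast_nonneg (α := ℝ) k]
    have ht : (1 : ℝ) ≤ (t : ℝ) + 1 := by linarith [Nat.cast_nonneg (α := ℝ) t]
    rw [mul_pow]
    have e1 : ((k : ℝ) + 1) ^ 3 * ((k : ℝ) + 1) ^ 2 ≤ ((k : ℝ) + 1) ^ (3 * (k + 2)) := by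
      rw [← pow_add]
      exact pow_le_pow_right₀ hk (by omega)
    have e2 : ((t : ℝ) + 1) ^ k * ((t : ℝ) + 1) ^ 2 ≤ ((t : ℝ) + 1) ^ (3 * (k + 2)) := by
      rw [← pow_add]
      exact pow_le_pow_right₀ ht (by omega)
    push_cast
    set a : ℝ := (k : ℝ) + 1
    set b : ℝ := (t : ℝ) + 1
    have ha : 0 < a := by linarith
    have hb : 0 < b := by linarith
    have f1 : a ^ 3 / a ^ (3 * (k + 2)) ≤ 1 / a ^ 2 := by
      rw [div_le_div_iff₀ (by positivity) (by positivity), one_mul]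
      exact e1
    have f2 : b ^ k / b ^ (3 * (k + 2)) ≤ 1 / b ^ 2 := by
      rw [div_le_div_iff₀ (by positivity) (by positivity), one_mul]
      exact e2
    calc b ^ k * (C * a ^ 3 * (1 / (a ^ (3 * (k + 2)) * b ^ (3 * (k + 2)))))
        = C * ((a ^ 3 / a ^ (3 * (k + 2))) * (b ^ k / b ^ (3 * (k + 2)))) := by field_simp
      _ ≤ C * (1 / a ^ 2 * (1 / b ^ 2)) := by gcongr
  have hfin : ∑' i, P (S i) ≠ ⊤ := by
    refine ne_top_of_le_ne_top ?_ (ENNReal.tsum_le_tsum hle)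
    have h1 : Summable fun n : ℕ => 1 / ((n : ℝ) + 1) ^ 2 := by
      have h1 := (summable_nat_add_iff 1).2 (Real.summable_one_div_nat_pow.2 (by norm_num : 1 < 2))
      simpa using h1
    have h2 : Summable fun i : ℕ × ℕ => 1 / ((i.1 : ℝ) + 1) ^ 2 * (1 / ((i.2 : ℝ) + 1) ^ 2) :=
      h1.mul_of_nonneg h1 (fun n => by positivity) (fun n => by positivity)
    rw [← ENNReal.ofReal_tsum_of_nonneg (fun i => by positivity) (h2.mul_left C)]
    exact ENNReal.ofReal_ne_top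
  filter_upwards [ae_finite_setOfPred_mem hfin] with z hz
  obtain ⟨b, hb⟩ := (hz.image Prod.snd).bddAbove
  refine ⟨b + 1, fun k hk t ht u hu v hv => ?_⟩
  have h1 : z ∉ S (k, t) := fun h => by
    have : t ≤ b := hb ⟨(k, t), h, rfl⟩
    omega
  by_contra hcon
  push Not at hcon
  apply h1
  rw [hS, mem_iUnion₂]
  refine ⟨u, ?_, v, hv, ?_⟩
  · rw [Fintype.mem_piFinset]
    intro i
    exact Finset.mem_range.2 (Nat.lt_succ_of_le (hu i))
  refine hcon.trans_le ?_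
  -- lower bound for the threshold
  have hk2 : (2 : ℝ) ≤ (k : ℝ) + 1 := by
    have : (1 : ℝ) ≤ k := by exact_mod_cast hk
    linarith
  have ht1 : (1 : ℝ) ≤ (t : ℝ) + 1 := by linarith [Nat.cast_nonneg (α := ℝ) t]
  set X : ℝ := ((k : ℝ) + 1) * ((t : ℝ) + 1) with hX
  have hXk : (k : ℝ) + 1 ≤ X := by rw [hX]; nlinarith
  have hX2 : (2 : ℝ) ≤ X := hk2.trans hXk
  have hX1 : 1 ≤ X := by linarith
  have e1 : 1 / X ^ (q * (k + 2) + 1) ≤ η k t := by
    simp only [hη]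
    rw [← hX, pow_succ, div_div, div_le_div_iff₀ (by positivity) (by positivity)]
    have : 0 < X ^ (q * (k + 2)) := by positivity
    nlinarith
  have e2 : 1 / X ^ (2 * k * (m + 1)) ≤ RR T k := by
    refine le_trans ?_ (hRR k hk)
    apply one_div_le_one_div_of_le (by positivity)
    exact pow_le_pow_left₀ (by positivity) hXk _
  have e3 : (1 / X ^ (q * (k + 2) + 1)) ^ DD k * (1 / X ^ (2 * k * (m + 1))) ≤ η k t ^ DD k * RR T k :=
    mul_le_mul (pow_le_pow_left₀ (by positivity) e1 _) e2 (by positivity) (pow_nonneg (hη0 k t).le _)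
  refine le_trans ?_ e3
  rw [div_pow, one_pow, ← pow_mul, div_mul_div_comm, one_mul, ← pow_add]
  apply one_div_le_one_div_of_le (by positivity)
  apply pow_le_pow_right₀ hX1
  unfold DD
  have h5 : (q * (k + 2) + 1) * (2 * ((k + 1) * k)) ≤ (2 * q + 2) * (k + 1) ^ 3 := by
    have h6 : (k + 2) * k ≤ (k + 1) ^ 2 := by nlinarith
    have h7 : k * (k + 1) ≤ (k + 1) ^ 3 := by nlinarith [Nat.zero_le (k ^ 2), Nat.zero_le (k ^ 3)]
    calc (q * (k + 2) + 1) * (2 * ((k + 1) * k)) = 2 * q * (((k + 2) * k) * (k + 1)) + 2 * (k * (k + 1)) := by ring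
      _ ≤ 2 * q * ((k + 1) ^ 2 * (k + 1)) + 2 * (k + 1) ^ 3 := by gcongr
      _ = (2 * q + 2) * (k + 1) ^ 3 := by ring
  have h6 : 2 * k * (m + 1) ≤ (2 * m + 2) * (k + 1) ^ 3 := by
    have h7 : k ≤ (k + 1) ^ 3 := by nlinarith [Nat.zero_le (k ^ 2), Nat.zero_le (k ^ 3)]
    calc 2 * k * (m + 1) = (2 * m + 2) * k := by ring
      _ ≤ (2 * m + 2) * (k + 1) ^ 3 := by gcongr
  calc _ ≤ (2 * q + 2) * (k + 1) ^ 3 + (2 * m + 2) * (k + 1) ^ 3 := add_le_add h5 h6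
    _ = (2 * q + 2 * m + 4) * (k + 1) ^ 3 := by ring

end Pool.Agent.Helper46.TB
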