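import Pool.Agent.Helper46.TB.Good

/-!
# Separation of the roots of an irreducible integer polynomial

If an irreducible integer polynomial `q` of degree `d`, Mahler measure `≤ 2 ^ N` (`d ≤ N`) is small at a real `x`, then
`x` is near the real part of a root: `|x - Re w| ≤ 2 ^ (6 N d) |q(x)|`.
-/

set_option autoImplicit false

namespace Pool.Agent.Helper46.TB

open Set Polynomial

/-- complexification -/
noncomputable def cx (q : ℤ[X]) : ℂ[X] := q.map (Int.castRingHom ℂ)

theorem cx_inj : Function.Injective (Int.castRingHom ℂ) := Int.cast_injective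

theorem natDegree_cx (q : ℤ[X]) : (cx q).natDegree = q.natDegree := natDegree_map_eq_of_injective cx_inj q

theorem leadingCoeff_cx (q : ℤ[X]) : (cx q).leadingCoeff = (q.leadingCoeff : ℂ) := by
  unfold cx; rw [leadingCoeff_map_of_injective cx_inj]; rfl

theorem cx_ne_zero {q : ℤ[X]} (hq : q ≠ 0) : cx q ≠ 0 := (Polynomial.map_ne_zero_iff cx_inj).2 hq

theorem one_le_norm_lead {q : ℤ[X]} (hq : q ≠ 0) : 1 ≤ ‖(cx q).leadingCoeff‖ := by
  rw [leadingCoeff_cx, Complex.norm_intCast]
  exact_mod_cast Int.one_le_abs (leadingCoeff_ne_zero.2 hq)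

/-- Mahler measure -/
noncomputable def MM (q : ℤ[X]) : ℝ := (cx q).mahlerMeasure

theorem one_le_MM {q : ℤ[X]} (hq : q ≠ 0) : 1 ≤ MM q :=
  one_le_mahlerMeasure_of_one_le_norm_leadingCoeff (one_le_norm_lead hq)

theorem MM_mul (p q : ℤ[X]) : MM (p * q) = MM p * MM q := by
  unfold MM cx
  rw [Polynomial.map_mul, mahlerMeasure_mul]

theorem coeff_le (q : ℤ[X]) (i : ℕ) : (|q.coeff i| : ℝ) ≤ 2 ^ q.natDegree * MM q := by
  have h := norm_coeff_le_choose_mul_mahlerMeasure i (cx q)
  have h1 : (cx q).coeff i = (q.coeff i : ℂ) := by unfold cx; rw [coeff_map]; rfl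
  rw [h1, Complex.norm_intCast, natDegree_cx] at h
  refine h.trans ?_
  apply mul_le_mul_of_nonneg_right _ (mahlerMeasure_nonneg _)
  exact_mod_cast Nat.choose_le_two_pow _ _

theorem coprime_derivative {q : ℤ[X]} (hq : Irreducible q) (hd : 1 ≤ q.natDegree) :
    IsCoprime (cx q) (derivative (cx q)) := by
  have hprim : q.IsPrimitive := hq.isPrimitive (by omega)
  have h1 : Irreducible (q.map (Int.castRingHom ℚ)) := (IsPrimitive.Int.irreducible_iff_irreducible_map_cast hprim).1 hq
  have h2 : (q.map (Int.castRingHom ℚ)).Separable := h1.separable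
  have h3 := h2.map (f := algebraMap ℚ ℂ)
  rw [Polynomial.map_map] at h3
  have h4 : (algebraMap ℚ ℂ).comp (Int.castRingHom ℚ) = Int.castRingHom ℂ := RingHom.ext_int _ _
  rw [h4] at h3
  exact h3

theorem one_le_norm_resultant {q : ℤ[X]} (hq : Irreducible q) (hd : 1 ≤ q.natDegree) :
    1 ≤ ‖(cx q).leadingCoeff‖ ^ (q.natDegree - 1) *
      ((cx q).roots.map fun v => ‖(derivative (cx q)).eval v‖).prod := by
  have hcop := coprime_derivative hq hd
  have hne := resultant_ne_zero _ _ hcop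
  have hdeg : (derivative (cx q)).natDegree = q.natDegree - 1 := by
    rw [Polynomial.natDegree_derivative, natDegree_cx]
  have h1 := resultant_eq_prod_eval (cx q) (derivative (cx q)) (q.natDegree - 1) hdeg.le (IsAlgClosed.splits _)
  rw [hdeg] at hne
  have h2 : resultant (cx q) (derivative (cx q)) (cx q).natDegree (q.natDegree - 1) =
      ((resultant q (derivative q) q.natDegree (q.natDegree - 1) : ℤ) : ℂ) := by
    unfold cx
    rw [derivative_map, resultant_map_map, natDegree_map_eq_of_injective cx_inj]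
    rfl
  rw [h2] at h1 hne
  have h3 : 1 ≤ ‖((resultant q (derivative q) q.natDegree (q.natDegree - 1) : ℤ) : ℂ)‖ := by
    rw [Complex.norm_intCast]
    have : (resultant q (derivative q) q.natDegree (q.natDegree - 1) : ℤ) ≠ 0 := by
      intro h; rw [h] at hne; simp at hne
    exact_mod_cast Int.one_le_abs this
  rw [h1, norm_mul, norm_pow, norm_prod_map] at h3
  exact h3

theorem eval_derivative_root {f : ℂ[X]} [DecidableEq ℂ] {w : ℂ} (hw : w ∈ f.roots) :
    ‖(derivative f).eval w‖ = ‖f.leadingCoeff‖ * ((f.roots.erase w).map fun v => ‖w - v‖).prod := by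
  have hs : f = C f.leadingCoeff * (f.roots.map (X - C ·)).prod := (IsAlgClosed.splits f).eq_prod_roots
  have h1 : derivative f = C f.leadingCoeff * derivative (f.roots.map (X - C ·)).prod := by
    conv_lhs => rw [hs]
    rw [derivative_C_mul]
  rw [h1, eval_mul, eval_C, eval_multiset_prod_X_sub_C_derivative hw, norm_mul, norm_prod_map]

theorem norm_eval_derivative_le {q : ℤ[X]} (hd : 1 ≤ q.natDegree) (v : ℂ) :
    ‖(derivative (cx q)).eval v‖ ≤ ((q.natDegree : ℝ) ^ 2 * 2 ^ q.natDegree * MM q) *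
      max 1 ‖v‖ ^ (q.natDegree - 1) := by
  set d := q.natDegree with hdd
  have hM := mahlerMeasure_nonneg (cx q)
  have hdeg : (derivative (cx q)).natDegree < d := by
    rw [Polynomial.natDegree_derivative, natDegree_cx]; omega
  rw [eval_eq_sum_range' hdeg]
  refine (norm_sum_le _ _).trans ?_
  have hterm : ∀ i ∈ Finset.range d, ‖(derivative (cx q)).coeff i * v ^ i‖ ≤
      ((d : ℝ) * 2 ^ d * MM q) * max 1 ‖v‖ ^ (d - 1) := by
    intro i hi
    have hi' := Finset.mem_range.1 hi
    rw [coeff_derivative, norm_mul, norm_pow, norm_mul]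
    have h1 : (cx q).coeff (i + 1) = (q.coeff (i + 1) : ℂ) := by unfold cx; rw [coeff_map]; rfl
    have h2 : ‖(cx q).coeff (i + 1)‖ ≤ 2 ^ d * MM q := by
      rw [h1, Complex.norm_intCast]; exact coeff_le q (i + 1)
    have h3 : ‖((i : ℂ) + 1)‖ ≤ d := by
      have : ((i : ℂ) + 1) = ((i + 1 : ℕ) : ℂ) := by push_cast; ring
      rw [this, Complex.norm_natCast]
      exact_mod_cast hi'
    have h4 : ‖v‖ ^ i ≤ max 1 ‖v‖ ^ (d - 1) :=
      (pow_le_pow_left₀ (norm_nonneg _) (le_max_right _ _) i).trans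
        (pow_le_pow_right₀ (le_max_left _ _) (by omega))
    have h5 : ‖(cx q).coeff (i + 1)‖ * ‖((i : ℂ) + 1)‖ ≤ (d : ℝ) * 2 ^ d * MM q := by
      calc _ ≤ (2 ^ d * MM q) * d := mul_le_mul h2 h3 (norm_nonneg _) (mul_nonneg (by positivity) hM)
        _ = _ := by ring
    exact mul_le_mul h5 h4 (by positivity) (mul_nonneg (by positivity) hM)
  refine (Finset.sum_le_sum hterm).trans (le_of_eq ?_)
  rw [Finset.sum_const, Finset.card_range, nsmul_eq_mul]
  ring

theorem prod_map_mul_const (m : Multiset ℂ) (u : ℂ → ℝ) (c : ℝ) :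
    (m.map fun z => c * u z).prod = c ^ (Multiset.card m) * (m.map u).prod := by
  induction m using Multiset.induction_on with
  | empty => simp
  | cons a m ih => simp [ih, pow_succ]; ring

theorem prod_map_le (m : Multiset ℂ) (u v : ℂ → ℝ) (hu : ∀ z ∈ m, 0 ≤ u z) (h : ∀ z ∈ m, u z ≤ v z) :
    (m.map u).prod ≤ (m.map v).prod := by
  have := prod_le_prod_of_le m v u 1 zero_le_one hu (by simpa using h)
  simpa using this

/-- lower bound for the derivative at a root -/
theorem derivative_lower {q : ℤ[X]} (hq : Irreducible q) (hd : 1 ≤ q.natDegree) {w : ℂ} (hw : w ∈ (cx q).roots) :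
    1 ≤ ‖(derivative (cx q)).eval w‖ *
      ((q.natDegree : ℝ) ^ 2 * 2 ^ q.natDegree * MM q * MM q) ^ (q.natDegree - 1) := by
  classical
  set d := q.natDegree with hdd
  set S := (cx q).roots with hS
  have hcard : Multiset.card S = d := by
    rw [hS, ← (IsAlgClosed.splits (cx q)).natDegree_eq_card_roots, natDegree_cx]
  have hM := mahlerMeasure_nonneg (cx q)
  have h1 := one_le_norm_resultant hq hd
  rw [← hS, ← hdd, ← Multiset.cons_erase hw, Multiset.map_cons, Multiset.prod_cons] at h1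
  set a := ‖(cx q).leadingCoeff‖ with ha
  set B := (d : ℝ) ^ 2 * 2 ^ d * MM q with hB
  have hB0 : 0 ≤ B := mul_nonneg (by positivity) hM
  have h2 : ((S.erase w).map fun v => ‖(derivative (cx q)).eval v‖).prod ≤
      ((S.erase w).map fun v => B * max 1 ‖v‖ ^ (d - 1)).prod :=
    prod_map_le _ _ _ (fun _ _ => norm_nonneg _) fun v _ => norm_eval_derivative_le hd v
  have h3 : ((S.erase w).map fun v => B * max 1 ‖v‖ ^ (d - 1)).prod =
      B ^ (d - 1) * ((S.erase w).map fun v => max 1 ‖v‖).prod ^ (d - 1) := by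
    rw [prod_map_mul_const, Multiset.card_erase_of_mem hw, hcard, Multiset.prod_map_pow]
    rfl
  have h4 : ((S.erase w).map fun v => max 1 ‖v‖).prod ≤ (S.map fun v => max 1 ‖v‖).prod := by
    rw [← Multiset.cons_erase hw, Multiset.map_cons, Multiset.prod_cons, Multiset.erase_cons_head]
    have h5 : 0 ≤ ((S.erase w).map fun v => max 1 ‖v‖).prod := by
      apply Multiset.prod_nonneg
      intro b hb
      obtain ⟨z, _, rfl⟩ := Multiset.mem_map.1 hb
      positivity
    exact le_mul_of_one_le_left h5 (le_max_left _ _)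
  have h5 : MM q = a * (S.map fun v => max 1 ‖v‖).prod := mahlerMeasure_eq_leadingCoeff_mul_prod_roots _
  have h6 : 0 ≤ ((S.erase w).map fun v => max 1 ‖v‖).prod := by
    apply Multiset.prod_nonneg
    intro b hb
    obtain ⟨z, _, rfl⟩ := Multiset.mem_map.1 hb
    positivity
  have ha0 : 0 ≤ a := norm_nonneg _
  calc (1 : ℝ) ≤ a ^ (d - 1) * (‖(derivative (cx q)).eval w‖ *
        ((S.erase w).map fun v => ‖(derivative (cx q)).eval v‖).prod) := h1
    _ ≤ a ^ (d - 1) * (‖(derivative (cx q)).eval w‖ *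
        (B ^ (d - 1) * (S.map fun v => max 1 ‖v‖).prod ^ (d - 1))) := by
        apply mul_le_mul_of_nonneg_left _ (pow_nonneg ha0 _)
        apply mul_le_mul_of_nonneg_left _ (norm_nonneg _)
        refine h2.trans (h3.le.trans ?_)
        apply mul_le_mul_of_nonneg_left _ (pow_nonneg hB0 _)
        exact pow_le_pow_left₀ h6 h4 _
    _ = ‖(derivative (cx q)).eval w‖ * (B * MM q) ^ (d - 1) := by rw [h5, mul_pow, mul_pow]; ring

theorem sep {q : ℤ[X]} (hq : Irreducible q) (hd : 1 ≤ q.natDegree) {N : ℕ} (hN : q.natDegree ≤ N)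
    (hM : MM q ≤ 2 ^ N) (x : ℝ) :
    ∃ w ∈ (cx q).roots, |x - w.re| ≤ 2 ^ (6 * N * q.natDegree) * |aeval x q| := by
  classical
  set d := q.natDegree with hdd
  set S := (cx q).roots with hS
  have hcard : Multiset.card S = d := by
    rw [hS, ← (IsAlgClosed.splits (cx q)).natDegree_eq_card_roots, natDegree_cx]
  have hne : S.toFinset.Nonempty := by
    rw [Multiset.toFinset_nonempty]
    intro h
    rw [h, Multiset.card_zero] at hcard
    omega
  obtain ⟨w, hw1, hw2⟩ := Finset.exists_min_image S.toFinset (fun v => ‖(x : ℂ) - v‖) hne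
  rw [Multiset.mem_toFinset] at hw1
  refine ⟨w, hw1, ?_⟩
  have hval : |aeval x q| = ‖(cx q).leadingCoeff‖ * (S.map fun v => ‖(x : ℂ) - v‖).prod := by
    have h1 := (IsAlgClosed.splits (cx q)).eval_eq_prod_roots (x : ℂ)
    have h2 : (cx q).eval (x : ℂ) = ((aeval x q : ℝ) : ℂ) := by
      unfold cx
      rw [eval_map, ← algebraMap_int_eq, ← aeval_def]
      have := (Polynomial.aeval_algebraMap_apply ℂ x q)
      simpa using this
    rw [h2] at h1
    have h3 : |aeval x q| = ‖((aeval x q : ℝ) : ℂ)‖ := by rw [Complex.norm_real, Real.norm_eq_abs]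
    rw [h3, h1, norm_mul, norm_prod_map]
  have hder := eval_derivative_root (f := cx q) hw1
  rw [← hS] at hder
  have hlow := derivative_lower hq hd hw1
  rw [← hdd] at hlow
  -- compare
  have h1 : (1 / 2 : ℝ) ^ (d - 1) * ((S.erase w).map fun v => ‖w - v‖).prod ≤
      ((S.erase w).map fun v => ‖(x : ℂ) - v‖).prod := by
    have h2 := prod_le_prod_of_le (S.erase w) (fun v => ‖(x : ℂ) - v‖) (fun v => ‖w - v‖) (1 / 2) (by norm_num)
      (fun _ _ => norm_nonneg _) (by
        intro v hv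
        have h3 := hw2 v (Multiset.mem_toFinset.2 (Multiset.mem_of_mem_erase hv))
        have h4 : ‖w - v‖ ≤ ‖(x : ℂ) - w‖ + ‖(x : ℂ) - v‖ := by
          have : w - v = -((x : ℂ) - w) + ((x : ℂ) - v) := by ring
          rw [this]
          refine (norm_add_le _ _).trans ?_
          rw [norm_neg]
        linarith)
    rw [Multiset.card_erase_of_mem hw1, hcard] at h2
    exact h2
  have h2 : ‖(x : ℂ) - w‖ * ‖(derivative (cx q)).eval w‖ * (1 / 2) ^ (d - 1) ≤ |aeval x q| := by
    rw [hval, hder, ← Multiset.cons_erase hw1, Multiset.map_cons, Multiset.prod_cons, Multiset.erase_cons_head]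
    have h3 := norm_nonneg (cx q).leadingCoeff
    have h4 := norm_nonneg ((x : ℂ) - w)
    calc _ = ‖(cx q).leadingCoeff‖ * (‖(x : ℂ) - w‖ * ((1 / 2 : ℝ) ^ (d - 1) * ((S.erase w).map fun v => ‖w - v‖).prod)) := by
          ring
      _ ≤ _ := by
          apply mul_le_mul_of_nonneg_left _ h3
          exact mul_le_mul_of_nonneg_left h1 h4
  have h3 : ((d : ℝ) ^ 2 * 2 ^ d * MM q * MM q) ≤ 2 ^ (5 * N) := by
    have h4 : (d : ℝ) ≤ 2 ^ N := by
      have : d < 2 ^ d := Nat.lt_two_pow_self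
      have h5 : 2 ^ d ≤ 2 ^ N := Nat.pow_le_pow_right (by norm_num) hN
      exact_mod_cast (this.le.trans h5)
    have h5 : (2 : ℝ) ^ d ≤ 2 ^ N := pow_le_pow_right₀ (by norm_num) hN
    have h6 : 0 ≤ MM q := mahlerMeasure_nonneg _
    calc ((d : ℝ) ^ 2 * 2 ^ d * MM q * MM q) ≤ ((2 ^ N) ^ 2 * 2 ^ N * 2 ^ N * 2 ^ N) := by gcongr
      _ = 2 ^ (5 * N) := by rw [← pow_mul, ← pow_add, ← pow_add, ← pow_add]; congr 1; ring
  have h4 : 1 ≤ ‖(derivative (cx q)).eval w‖ * 2 ^ (5 * N * (d - 1)) := by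
    refine hlow.trans ?_
    apply mul_le_mul_of_nonneg_left _ (norm_nonneg _)
    rw [pow_mul 2 (5 * N) (d - 1)]
    apply pow_le_pow_left₀ _ h3
    have := mahlerMeasure_nonneg (cx q)
    unfold MM
    positivity
  have h5 : |x - w.re| ≤ ‖(x : ℂ) - w‖ := by
    have := Complex.abs_re_le_norm ((x : ℂ) - w)
    simpa using this
  calc |x - w.re| ≤ ‖(x : ℂ) - w‖ := h5
    _ ≤ ‖(x : ℂ) - w‖ * (‖(derivative (cx q)).eval w‖ * 2 ^ (5 * N * (d - 1))) :=
        le_mul_of_one_le_right (norm_nonneg _) h4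
    _ = 2 ^ (5 * N * (d - 1)) * 2 ^ (d - 1) *
        (‖(x : ℂ) - w‖ * ‖(derivative (cx q)).eval w‖ * (1 / 2) ^ (d - 1)) := by
        rw [one_div, inv_pow]
        field_simp
    _ ≤ 2 ^ (5 * N * (d - 1)) * 2 ^ (d - 1) * |aeval x q| := by gcongr
    _ ≤ 2 ^ (6 * N * d) * |aeval x q| := by
        apply mul_le_mul_of_nonneg_right _ (abs_nonneg _)
        rw [← pow_add]
        apply pow_le_pow_right₀ (by norm_num)
        have hd1 : d - 1 + 1 = d := Nat.sub_add_cancel hd
        have hN1 : 1 ≤ N := hd.trans hN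
        nlinarith [Nat.sub_le d 1]

end Pool.Agent.Helper46.TB
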