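import Mathlib

/-!
# A box principle and sparse polynomials
-/

set_option autoImplicit false

namespace Pool.Agent.Helper46.TB

open Polynomial Finset

/-- box principle: an integer vector orthogonal to the first powers of `j` and nearly orthogonal to `β` -/
theorem siegel {d : ℕ} (r : ℕ) (j : Fin (d + 1) → ℕ) (G : ℕ) (hG1 : 1 ≤ G) (hG : ∀ m, j m ≤ G)
    (β : Fin (d + 1) → ℝ) (Z : ℝ) (hβ : ∀ m, |β m| ≤ Z) (V : ℕ)
    (hV : (((d : ℝ) + 1) * V * G ^ r + 1) ^ (r + 1) * (2 * (((d : ℝ) + 1) * V * Z) + 1) < ((V : ℝ) + 1) ^ (d + 1)) :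
    ∃ x : Fin (d + 1) → ℤ, x ≠ 0 ∧ (∀ m, |x m| ≤ V) ∧ (∀ i, i ≤ r → ∑ m, x m * (j m : ℤ) ^ i = 0) ∧
      |∑ m, (x m : ℝ) * β m| < 1 := by
  classical
  have hZ : 0 ≤ Z := (abs_nonneg _).trans (hβ 0)
  set U : ℕ := (d + 1) * V * G ^ r + 1 with hU
  set S : ℝ := ((d : ℝ) + 1) * V * Z with hS
  have hS0 : 0 ≤ S := by positivity
  set W : ℕ := ⌊2 * S⌋₊ + 1 with hW
  have hφ : ∀ v : Fin (d + 1) → Fin (V + 1), |∑ m, ((v m : ℕ) : ℝ) * β m| ≤ S := by
    intro v
    refine (Finset.abs_sum_le_sum_abs _ _).trans ?_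
    have h1 : ∀ m ∈ (Finset.univ : Finset (Fin (d + 1))), |((v m : ℕ) : ℝ) * β m| ≤ V * Z := by
      intro m _
      rw [abs_mul, Nat.abs_cast]
      apply mul_le_mul _ (hβ m) (abs_nonneg _) (Nat.cast_nonneg _)
      exact_mod_cast Nat.lt_succ_iff.1 (v m).2
    refine (Finset.sum_le_sum h1).trans (le_of_eq ?_)
    rw [Finset.sum_const, Finset.card_univ, Fintype.card_fin, nsmul_eq_mul, hS]
    push_cast
    ring
  set F : (Fin (d + 1) → Fin (V + 1)) → (Fin (r + 1) → ℕ) × ℕ := fun v =>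
    (fun i => ∑ m, (v m : ℕ) * (j m) ^ (i : ℕ), ⌊(∑ m, ((v m : ℕ) : ℝ) * β m) + S⌋₊) with hF
  have hmaps : ∀ v ∈ (Finset.univ : Finset (Fin (d + 1) → Fin (V + 1))),
      F v ∈ (Fintype.piFinset fun _ : Fin (r + 1) => Finset.range U) ×ˢ Finset.range W := by
    intro v _
    rw [Finset.mem_product, Fintype.mem_piFinset]
    constructor
    · intro i
      rw [Finset.mem_range]
      apply Nat.lt_succ_of_le
      have h1 : ∀ m ∈ (Finset.univ : Finset (Fin (d + 1))), (v m : ℕ) * (j m) ^ (i : ℕ) ≤ V * G ^ r := by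
        intro m _
        apply Nat.mul_le_mul (Nat.lt_succ_iff.1 (v m).2)
        exact (Nat.pow_le_pow_left (hG m) _).trans (Nat.pow_le_pow_right hG1 (Nat.lt_succ_iff.1 i.2))
      refine (Finset.sum_le_sum h1).trans (le_of_eq ?_)
      rw [Finset.sum_const, Finset.card_univ, Fintype.card_fin, smul_eq_mul]
      ring
    · rw [Finset.mem_range]
      apply Nat.lt_succ_of_le
      apply Nat.floor_mono
      have := (abs_le.1 (hφ v)).2
      linarith
  have hcard : ((Fintype.piFinset fun _ : Fin (r + 1) => Finset.range U) ×ˢ Finset.range W).card <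
      (Finset.univ : Finset (Fin (d + 1) → Fin (V + 1))).card := by
    rw [Finset.card_product, Fintype.card_piFinset, Finset.card_univ]
    simp only [Finset.card_range, Finset.prod_const, Finset.card_univ, Fintype.card_fin, Fintype.card_fun]
    have h1 : ((U ^ (r + 1) * W : ℕ) : ℝ) < (((V + 1) ^ (d + 1) : ℕ) : ℝ) := by
      push_cast
      refine lt_of_le_of_lt ?_ hV
      have h2 : (W : ℝ) ≤ 2 * S + 1 := by
        rw [hW]; push_cast
        have := Nat.floor_le (by positivity : 0 ≤ 2 * S)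
        linarith
      have h3 : (U : ℝ) = ((d : ℝ) + 1) * V * G ^ r + 1 := by rw [hU]; push_cast; ring
      rw [h3]
      exact mul_le_mul_of_nonneg_left h2 (by positivity)
    exact_mod_cast h1
  obtain ⟨v, -, v', -, hne, heq⟩ := Finset.exists_ne_map_eq_of_card_lt_of_maps_to hcard hmaps
  simp only [hF, Prod.mk.injEq] at heq
  obtain ⟨e1, e2⟩ := heq
  refine ⟨fun m => ((v m : ℕ) : ℤ) - ((v' m : ℕ) : ℤ), ?_, ?_, ?_, ?_⟩
  · intro h0
    apply hne
    funext m
    have := congrFun h0 m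
    simp only [Pi.zero_apply] at this
    apply Fin.ext
    omega
  · intro m
    have h1 := (v m).2
    have h2 := (v' m).2
    show |((v m : ℕ) : ℤ) - ((v' m : ℕ) : ℤ)| ≤ (V : ℤ)
    rw [abs_le]
    constructor <;> omega
  · intro i hi
    have h1 := congrFun e1 ⟨i, Nat.lt_succ_of_le hi⟩
    simp only at h1
    have h2 : (∑ m, ((v m : ℕ) : ℤ) * (j m : ℤ) ^ i) = ∑ m, ((v' m : ℕ) : ℤ) * (j m : ℤ) ^ i := by exact_mod_cast h1
    simp only [sub_mul, Finset.sum_sub_distrib]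
    rw [h2, sub_self]
  · have h1 : (∑ m, (((((v m : ℕ) : ℤ) - ((v' m : ℕ) : ℤ) : ℤ)) : ℝ) * β m) =
        (∑ m, ((v m : ℕ) : ℝ) * β m + S) - (∑ m, ((v' m : ℕ) : ℝ) * β m + S) := by
      rw [add_sub_add_right_eq_sub, ← Finset.sum_sub_distrib]
      refine Finset.sum_congr rfl fun m _ => ?_
      push_cast
      ring
    rw [h1]
    set a := ∑ m, ((v m : ℕ) : ℝ) * β m + S with ha
    set b := ∑ m, ((v' m : ℕ) : ℝ) * β m + S with hb
    have ha0 : 0 ≤ a := by have := (abs_le.1 (hφ v)).1; linarith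
    have hb0 : 0 ≤ b := by have := (abs_le.1 (hφ v')).1; linarith
    have a1 := Nat.floor_le ha0
    have a2 := Nat.lt_floor_add_one a
    have b1 := Nat.floor_le hb0
    have b2 := Nat.lt_floor_add_one b
    rw [e2] at a1 a2
    rw [abs_lt]
    constructor <;> linarith

theorem sum_poly_zero {d r : ℕ} (x : Fin (d + 1) → ℤ) (j : Fin (d + 1) → ℕ)
    (hx : ∀ i, i ≤ r → ∑ m, x m * (j m : ℤ) ^ i = 0) (Q : ℝ[X]) (hQ : Q.natDegree ≤ r) :
    ∑ m, (x m : ℝ) * Q.eval (j m : ℝ) = 0 := by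
  simp only [eval_eq_sum_range' (Nat.lt_succ_of_le hQ), Finset.mul_sum]
  rw [Finset.sum_comm]
  apply Finset.sum_eq_zero
  intro i hi
  have h1 := hx i (Nat.lt_succ_iff.1 (Finset.mem_range.1 hi))
  have h2 : (∑ m, (x m : ℝ) * (j m : ℝ) ^ i) = 0 := by exact_mod_cast h1
  calc ∑ m, (x m : ℝ) * (Q.coeff i * (j m : ℝ) ^ i) = Q.coeff i * ∑ m, (x m : ℝ) * (j m : ℝ) ^ i := by
        rw [Finset.mul_sum]
        refine Finset.sum_congr rfl fun m _ => by ring
    _ = 0 := by rw [h2, mul_zero]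

/-- sparse polynomial -/
noncomputable def sp {d : ℕ} (x : Fin (d + 1) → ℤ) (j : Fin (d + 1) → ℕ) : ℤ[X] := ∑ m, C (x m) * X ^ (j m)

variable {d : ℕ} (x : Fin (d + 1) → ℤ) (j : Fin (d + 1) → ℕ)

theorem aeval_sp (α : ℝ) : aeval α (sp x j) = ∑ m, (x m : ℝ) * α ^ (j m) := by
  unfold sp
  rw [map_sum]
  refine Finset.sum_congr rfl fun m _ => ?_
  simp

theorem coeff_sp (i : ℕ) : (sp x j).coeff i = ∑ m, if i = j m then x m else 0 := by
  unfold sp
  rw [finsetSum_coeff]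
  refine Finset.sum_congr rfl fun m _ => ?_
  rw [coeff_C_mul, coeff_X_pow]
  split_ifs <;> simp

variable (hj : Function.Injective j)

include hj in
theorem coeff_sp_self (m : Fin (d + 1)) : (sp x j).coeff (j m) = x m := by
  rw [coeff_sp, Finset.sum_eq_single m]
  · simp
  · intro m' _ hm'
    rw [if_neg]
    intro h
    exact hm' (hj h).symm
  · simp

theorem coeff_sp_of_ne (i : ℕ) (h : ∀ m, i ≠ j m) : (sp x j).coeff i = 0 := by
  rw [coeff_sp]
  apply Finset.sum_eq_zero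
  intro m _
  rw [if_neg (h m)]

include hj in
theorem sp_ne_zero (hx : x ≠ 0) : sp x j ≠ 0 := by
  intro h
  apply hx
  funext m
  rw [← coeff_sp_self x j hj m, h, coeff_zero]
  rfl

theorem natDegree_sp {G : ℕ} (hG : ∀ m, j m ≤ G) : (sp x j).natDegree ≤ G := by
  unfold sp
  refine natDegree_sum_le_of_forall_le _ _ fun m _ => ?_
  exact (natDegree_C_mul_X_pow_le _ _).trans (hG m)

include hj in
theorem abs_coeff_sp_le {V : ℕ} (hV : ∀ m, |x m| ≤ V) (i : ℕ) : |(((sp x j).coeff i : ℤ) : ℝ)| ≤ V := by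
  by_cases h : ∃ m, i = j m
  · obtain ⟨m, rfl⟩ := h
    rw [coeff_sp_self x j hj]
    exact_mod_cast hV m
  · push Not at h
    rw [coeff_sp_of_ne x j i h]
    simp

include hj in
theorem prod_sp_le {V : ℕ} (hV1 : 1 ≤ V) (hV : ∀ m, |x m| ≤ V) (G : ℕ) :
    ∏ i : Fin G, max 1 |(((sp x j).coeff (i + 1) : ℤ) : ℝ)| ≤ (V : ℝ) ^ (d + 1) := by
  classical
  have hV1' : (1 : ℝ) ≤ V := by exact_mod_cast hV1
  set T : Finset (Fin G) := Finset.univ.filter (fun i => ∃ m, (i : ℕ) + 1 = j m) with hT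
  have h1 : ∏ i : Fin G, max 1 |(((sp x j).coeff (i + 1) : ℤ) : ℝ)| ≤ ∏ i : Fin G, (if i ∈ T then (V : ℝ) else 1) := by
    apply Finset.prod_le_prod
    · intro i _; positivity
    · intro i _
      by_cases hi : i ∈ T
      · rw [if_pos hi]
        exact max_le hV1' (abs_coeff_sp_le x j hj hV _)
      · rw [if_neg hi]
        have h2 : ∀ m, (i : ℕ) + 1 ≠ j m := by
          intro m hm
          apply hi
          rw [hT, Finset.mem_filter]
          exact ⟨Finset.mem_univ _, m, hm⟩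
        rw [coeff_sp_of_ne x j _ h2]
        simp
  refine h1.trans ?_
  rw [Finset.prod_ite_mem, Finset.univ_inter, Finset.prod_const]
  apply pow_le_pow_right₀ hV1'
  have h2 : (T.image (fun i : Fin G => (i : ℕ) + 1)).card = T.card :=
    Finset.card_image_of_injective _ (fun a b hab => by
      apply Fin.ext
      have hab' : (a : ℕ) + 1 = (b : ℕ) + 1 := hab
      omega)
  rw [← h2]
  have h3 : T.image (fun i : Fin G => (i : ℕ) + 1) ⊆ Finset.univ.image j := by
    intro l hl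
    obtain ⟨i, hi, rfl⟩ := Finset.mem_image.1 hl
    rw [hT, Finset.mem_filter] at hi
    obtain ⟨m, hm⟩ := hi.2
    rw [Finset.mem_image]
    exact ⟨m, Finset.mem_univ _, hm.symm⟩
  refine (Finset.card_le_card h3).trans (Finset.card_image_le.trans ?_)
  simp

end Pool.Agent.Helper46.TB
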