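import Mathlib

/-!
# Binary trees of intervals and the coin-flip measure

`Om = ℕ → Bool` with the coin-flip measure `P`; cylinders `cyl x n`.  A `Tree` assigns to each finite
prefix a compact interval `[lo n x, hi n x]`; the two children of an interval lie in it, are separated by a
gap which is a fixed proportion `g` of its length, and are not shorter than `κ` times its length.
-/

set_option autoImplicit false

namespace Pool.Agent.Helper46.TB

open MeasureTheory Set

/-- infinite sequences of bits -/
abbrev Om := ℕ → Bool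

/-- fair coin -/
noncomputable def coin : Measure Bool := (PMF.uniformOfFintype Bool).toMeasure

instance : IsProbabilityMeasure coin := by unfold coin; infer_instance

theorem coin_singleton (b : Bool) : coin {b} = 2⁻¹ := by
  unfold coin
  rw [PMF.toMeasure_apply_singleton _ _ (measurableSet_singleton b)]
  simp [PMF.uniformOfFintype_apply]

/-- coin-flip measure on sequences -/
noncomputable def P : Measure Om := Measure.infinitePi (fun _ : ℕ => coin)

instance : IsProbabilityMeasure P := by unfold P; infer_instance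

/-- sequences that agree with `x` before place `n` -/
def cyl (x : Om) (n : ℕ) : Set Om := {y | ∀ i < n, y i = x i}

theorem mem_cyl {x y : Om} {n : ℕ} : y ∈ cyl x n ↔ ∀ i < n, y i = x i := Iff.rfl

theorem self_mem_cyl (x : Om) (n : ℕ) : x ∈ cyl x n := fun _ _ => rfl

theorem cyl_eq_pi (x : Om) (n : ℕ) : cyl x n = Set.pi (Finset.range n : Set ℕ) (fun i => {x i}) := by
  ext y
  simp [cyl]

theorem measurableSet_cyl (x : Om) (n : ℕ) : MeasurableSet (cyl x n) := by
  rw [cyl_eq_pi]
  exact MeasurableSet.pi (Finset.countable_toSet _) (fun i _ => measurableSet_singleton _)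

theorem P_cyl (x : Om) (n : ℕ) : P (cyl x n) = 2⁻¹ ^ n := by
  rw [cyl_eq_pi]
  unfold P
  rw [Measure.infinitePi_pi _ (fun i _ => measurableSet_singleton _)]
  simp [coin_singleton]

theorem cyl_eq_of_mem {x y : Om} {n : ℕ} (h : y ∈ cyl x n) : cyl y n = cyl x n := by
  ext z
  exact ⟨fun hz i hi => (hz i hi).trans (h i hi), fun hz i hi => (hz i hi).trans (h i hi).symm⟩

theorem cyl_anti {x : Om} {n m : ℕ} (h : n ≤ m) : cyl x m ⊆ cyl x n :=
  fun _ hz i hi => hz i (hi.trans_le h)

theorem cyl_zero (x : Om) : cyl x 0 = univ := by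
  ext y; simp [cyl]

theorem cyl_split (x : Om) (n : ℕ) :
    cyl x n = cyl (Function.update x n false) (n + 1) ∪ cyl (Function.update x n true) (n + 1) := by
  ext y
  constructor
  · intro h
    cases hy : y n with
    | false =>
      left
      intro i hi
      rcases Nat.lt_succ_iff_lt_or_eq.1 hi with h1 | h1
      · rw [Function.update_of_ne h1.ne]; exact h i h1
      · subst h1; simp [hy]
    | true =>
      right
      intro i hi
      rcases Nat.lt_succ_iff_lt_or_eq.1 hi with h1 | h1
      · rw [Function.update_of_ne h1.ne]; exact h i h1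
      · subst h1; simp [hy]
  · rintro (h | h) i hi
    · have := h i (hi.trans (Nat.lt_succ_self n))
      rwa [Function.update_of_ne hi.ne] at this
    · have := h i (hi.trans (Nat.lt_succ_self n))
      rwa [Function.update_of_ne hi.ne] at this

/-- binary tree of intervals -/
structure Tree where
  lo : ℕ → Om → ℝ
  hi : ℕ → Om → ℝ
  κ : ℝ
  g : ℝ
  hκ : 0 < κ
  hg : 0 < g
  dep_lo : ∀ n x y, y ∈ cyl x n → lo n y = lo n x
  dep_hi : ∀ n x y, y ∈ cyl x n → hi n y = hi n x
  lt : ∀ n x, lo n x < hi n x
  lo_le : ∀ n x, lo n x ≤ lo (n + 1) x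
  hi_le : ∀ n x, hi (n + 1) x ≤ hi n x
  ratio : ∀ n x, κ * (hi n x - lo n x) ≤ hi (n + 1) x - lo (n + 1) x
  gap : ∀ n x, hi (n + 1) (Function.update x n false) + g * (hi n x - lo n x) ≤
    lo (n + 1) (Function.update x n true)

namespace Tree

variable (T : Tree)

/-- length of the interval of `x` at level `n` -/
def len (n : ℕ) (x : Om) : ℝ := T.hi n x - T.lo n x

theorem len_pos (n : ℕ) (x : Om) : 0 < T.len n x := sub_pos.2 (T.lt n x)

theorem dep_len {n : ℕ} {x y : Om} (h : y ∈ cyl x n) : T.len n y = T.len n x := by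
  unfold len; rw [T.dep_lo n x y h, T.dep_hi n x y h]

theorem lo_mono (x : Om) : Monotone fun n => T.lo n x := monotone_nat_of_le_succ fun n => T.lo_le n x

theorem hi_anti (x : Om) : Antitone fun n => T.hi n x := antitone_nat_of_succ_le fun n => T.hi_le n x

theorem lo_le_hi (m n : ℕ) (x : Om) : T.lo m x ≤ T.hi n x :=
  (T.lo_mono x (le_max_left m n)).trans ((T.lt (max m n) x).le.trans (T.hi_anti x (le_max_right m n)))

theorem bdd (x : Om) : BddAbove (range fun n => T.lo n x) :=
  ⟨T.hi 0 x, by rintro _ ⟨n, rfl⟩; exact T.lo_le_hi n 0 x⟩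

/-- limit point -/
noncomputable def pt (x : Om) : ℝ := ⨆ n, T.lo n x

theorem lo_le_pt (n : ℕ) (x : Om) : T.lo n x ≤ T.pt x := le_ciSup (T.bdd x) n

theorem pt_le_hi (n : ℕ) (x : Om) : T.pt x ≤ T.hi n x := ciSup_le fun m => T.lo_le_hi m n x

theorem update_mem (x : Om) (n : ℕ) (b : Bool) : Function.update x n b ∈ cyl x n := by
  intro i hi
  rw [Function.update_of_ne hi.ne]

theorem len_succ_le (n : ℕ) (x : Om) : T.len (n + 1) x ≤ (1 - T.g) * T.len n x := by
  have h := T.gap n x
  have e0 := T.hi_le n (Function.update x n true)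
  have e1 := T.lo_le n (Function.update x n false)
  have e2 := T.lt (n + 1) (Function.update x n false)
  have e3 := T.lt (n + 1) (Function.update x n true)
  rw [T.dep_hi n x _ (update_mem x n true)] at e0
  rw [T.dep_lo n x _ (update_mem x n false)] at e1
  unfold len
  cases hx : x n with
  | false =>
    have hu : Function.update x n false = x := by rw [← hx, Function.update_eq_self]
    rw [hu] at h e1 e2
    have := T.lo_le n x
    nlinarith
  | true =>
    have hu : Function.update x n true = x := by rw [← hx, Function.update_eq_self]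
    rw [hu] at h e0 e3
    have := T.hi_le n x
    nlinarith

theorem κ_lt_one : T.κ < 1 := by
  have x : Om := fun _ => false
  have h1 := T.ratio 0 x
  have h2 := T.len_succ_le 0 x
  have h3 := T.len_pos 0 x
  have h4 := T.hg
  unfold len at *
  by_contra h
  push Not at h
  nlinarith

theorem g_lt_one : T.g < 1 := by
  have x : Om := fun _ => false
  have h2 := T.len_succ_le 0 x
  have h3 := T.len_pos 0 x
  have h4 := T.len_pos (0 + 1) x
  by_contra h
  push Not at h
  nlinarith

theorem len_le (n : ℕ) (x : Om) : T.len n x ≤ (1 - T.g) ^ n * T.len 0 x := by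
  induction n with
  | zero => simp
  | succ n ih =>
    refine (T.len_succ_le n x).trans ?_
    rw [pow_succ, mul_comm _ (1 - T.g), mul_assoc]
    exact mul_le_mul_of_nonneg_left ih (by linarith [T.g_lt_one])

/-- an interval which is short compared with an interval of the tree has small measure there -/
theorem decay_nat (y r : ℝ) : ∀ (m n : ℕ) (x : Om), 2 * r < T.g * T.κ ^ m * T.len n x →
    P (cyl x n ∩ {z | |T.pt z - y| < r}) ≤ 2⁻¹ ^ (m + 1) * P (cyl x n) := by
  have hhalf : ∀ (n : ℕ) (x : Om), 2 * r < T.g * T.len n x → ∃ b : Bool,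
      cyl x n ∩ {z | |T.pt z - y| < r} ⊆ cyl (Function.update x n b) (n + 1) ∩ {z | |T.pt z - y| < r} := by
    intro n x h
    have hg := T.gap n x
    by_cases hy : y + r ≤ T.lo (n + 1) (Function.update x n true)
    · refine ⟨false, ?_⟩
      rintro z ⟨hz, hz2⟩
      refine ⟨?_, hz2⟩
      rw [cyl_split] at hz
      rcases hz with hz | hz
      · exact hz
      · exfalso
        have h1 := T.lo_le_pt (n + 1) z
        rw [T.dep_lo _ _ _ hz] at h1
        have h2 := (abs_lt.1 (show |T.pt z - y| < r from hz2)).2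
        linarith
    · refine ⟨true, ?_⟩
      rintro z ⟨hz, hz2⟩
      refine ⟨?_, hz2⟩
      rw [cyl_split] at hz
      rcases hz with hz | hz
      · exfalso
        have h1 := T.pt_le_hi (n + 1) z
        rw [T.dep_hi _ _ _ hz] at h1
        have h2 := (abs_lt.1 (show |T.pt z - y| < r from hz2)).1
        unfold len at h
        push Not at hy
        linarith
      · exact hz
  intro m
  induction m with
  | zero =>
    intro n x h
    simp only [pow_zero, mul_one] at h
    obtain ⟨b, hb⟩ := hhalf n x h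
    calc P (cyl x n ∩ {z | |T.pt z - y| < r}) ≤ P (cyl (Function.update x n b) (n + 1)) :=
          measure_mono (hb.trans inter_subset_left)
      _ = _ := by rw [P_cyl, P_cyl]; ring
  | succ m ih =>
    intro n x h
    have hk1 := T.κ_lt_one
    have hk0 := T.hκ
    have h' : 2 * r < T.g * T.len n x := by
      refine h.trans_le ?_
      have : T.κ ^ (m + 1) ≤ 1 := pow_le_one₀ hk0.le hk1.le
      have := T.hg
      have := T.len_pos n x
      nlinarith [mul_pos T.hg (T.len_pos n x)]
    obtain ⟨b, hb⟩ := hhalf n x h'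
    have h2 : 2 * r < T.g * T.κ ^ m * T.len (n + 1) (Function.update x n b) := by
      refine h.trans_le ?_
      have h3 := T.ratio n (Function.update x n b)
      have h4 : T.hi n (Function.update x n b) - T.lo n (Function.update x n b) = T.len n x :=
        T.dep_len (update_mem x n b)
      rw [h4] at h3
      have h5 : T.hi (n + 1) (Function.update x n b) - T.lo (n + 1) (Function.update x n b) =
        T.len (n + 1) (Function.update x n b) := rfl
      rw [h5] at h3
      have h6 : 0 ≤ T.g * T.κ ^ m := mul_nonneg T.hg.le (pow_nonneg hk0.le m)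
      calc T.g * T.κ ^ (m + 1) * T.len n x = T.g * T.κ ^ m * (T.κ * T.len n x) := by ring
        _ ≤ _ := mul_le_mul_of_nonneg_left h3 h6
    calc P (cyl x n ∩ {z | |T.pt z - y| < r})
        ≤ P (cyl (Function.update x n b) (n + 1) ∩ {z | |T.pt z - y| < r}) := measure_mono hb
      _ ≤ 2⁻¹ ^ (m + 1) * P (cyl (Function.update x n b) (n + 1)) := ih _ _ h2
      _ = 2⁻¹ ^ (m + 1 + 1) * P (cyl x n) := by rw [P_cyl, P_cyl]; ring

/-- decay exponent -/
noncomputable def s : ℝ := Real.log 2 / Real.log (T.κ⁻¹)

theorem s_pos : 0 < T.s := by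
  apply div_pos (Real.log_pos (by norm_num))
  exact Real.log_pos ((one_lt_inv₀ T.hκ).2 T.κ_lt_one)

theorem κ_rpow_s : T.κ ^ T.s = 2⁻¹ := by
  have h1 : Real.log T.κ ≠ 0 := (Real.log_neg T.hκ T.κ_lt_one).ne
  rw [Real.rpow_def_of_pos T.hκ, s, Real.log_inv]
  have : Real.log T.κ * (Real.log 2 / -Real.log T.κ) = - Real.log 2 := by
    field_simp
  rw [this, Real.exp_neg, Real.exp_log (by norm_num)]

theorem decay : ∃ C : ℝ, 0 < C ∧ ∀ (y r : ℝ) (n : ℕ) (x : Om), 0 < r →
    P (cyl x n ∩ {z | |T.pt z - y| < r}) ≤ ENNReal.ofReal (C * (r / T.len n x) ^ T.s) * P (cyl x n) := by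
  have hs := T.s_pos
  have hk0 := T.hκ
  have hk1 := T.κ_lt_one
  have hg := T.hg
  refine ⟨(2 / (T.g * T.κ)) ^ T.s * 2, by positivity, ?_⟩
  intro y r n x hr
  set t : ℝ := 2 * r / (T.g * T.len n x) with ht
  have hl := T.len_pos n x
  have htpos : 0 < t := by positivity
  have hkey : (2 / (T.g * T.κ)) ^ T.s * 2 * (r / T.len n x) ^ T.s = 2 * (t / T.κ) ^ T.s := by
    rw [ht, mul_right_comm, ← Real.mul_rpow (by positivity) (by positivity), mul_comm]
    congr 2
    field_simp
  rw [hkey]
  by_cases h1 : t < 1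
  · -- choose `m` with `κ ^ (m+1) ≤ t < κ ^ m`
    obtain ⟨m, hm1, hm2⟩ : ∃ m : ℕ, t < T.κ ^ m ∧ T.κ ^ (m + 1) ≤ t := by
      have hex : ∃ m : ℕ, T.κ ^ m ≤ t := by
        obtain ⟨m, hm⟩ := exists_pow_lt_of_lt_one htpos hk1
        exact ⟨m, hm.le⟩
      classical
      set m0 := Nat.find hex with hm0
      have hspec := Nat.find_spec hex
      have hne : m0 ≠ 0 := by
        intro h0
        rw [← hm0, h0] at hspec
        simp at hspec
        linarith
      refine ⟨m0 - 1, ?_, ?_⟩
      · have := Nat.find_min hex (m := m0 - 1) (by omega)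
        push Not at this
        exact this
      · rw [Nat.sub_add_cancel (Nat.one_le_iff_ne_zero.2 hne)]
        exact hspec
    have h2 : 2 * r < T.g * T.κ ^ m * T.len n x := by
      rw [ht, div_lt_iff₀ (by positivity)] at hm1
      linarith
    refine (T.decay_nat y r m n x h2).trans ?_
    gcongr
    have h3 : (T.κ ^ m) ^ T.s = (2⁻¹ : ℝ) ^ m := by
      rw [← Real.rpow_natCast, ← Real.rpow_mul hk0.le, mul_comm, Real.rpow_mul hk0.le, κ_rpow_s, Real.rpow_natCast]
    have h4 : (2⁻¹ : ℝ) ^ m ≤ (t / T.κ) ^ T.s := by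
      rw [← h3]
      apply Real.rpow_le_rpow (by positivity) _ hs.le
      rw [le_div_iff₀ hk0, ← pow_succ]
      exact hm2
    have h5 : (2⁻¹ : ENNReal) ^ (m + 1) = ENNReal.ofReal ((2⁻¹ : ℝ) ^ (m + 1)) := by
      rw [ENNReal.ofReal_pow (by norm_num), ENNReal.ofReal_inv_of_pos (by norm_num)]
      norm_num
    rw [h5]
    apply ENNReal.ofReal_le_ofReal
    have h6 : 0 ≤ (t / T.κ) ^ T.s := by positivity
    have h7 : (2⁻¹ : ℝ) ^ (m + 1) ≤ (2⁻¹ : ℝ) ^ m := pow_le_pow_of_le_one (by norm_num) (by norm_num) (Nat.le_succ m)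
    linarith
  · push Not at h1
    have h2 : (1 : ENNReal) ≤ ENNReal.ofReal (2 * (t / T.κ) ^ T.s) := by
      rw [← ENNReal.ofReal_one]
      apply ENNReal.ofReal_le_ofReal
      have h3 : 1 ≤ t / T.κ := by
        rw [le_div_iff₀ hk0]
        linarith
      have h4 : 1 ≤ (t / T.κ) ^ T.s := Real.one_le_rpow h3 hs.le
      linarith
    calc P (cyl x n ∩ {z | |T.pt z - y| < r}) ≤ P (cyl x n) := measure_mono inter_subset_left
      _ = 1 * P (cyl x n) := (one_mul _).symm
      _ ≤ _ := by gcongr

end Tree

end Pool.Agent.Helper46.TB
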