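import Pool.Agent.Helper46.TB.Deg
import Pool.Agent.Helper46.TB.Sep

/-!
# The transcendence measure uniform in the degree
-/

set_option autoImplicit false

namespace Pool.Agent.Helper46.TB

open MeasureTheory Set Polynomial

/-- integer polynomials of degree `≤ d` with coefficients of absolute value `≤ h` -/
noncomputable def box (d : ℕ) (h : ℤ) : Finset ℤ[X] :=
  (Fintype.piFinset fun _ : Fin (d + 1) => Finset.Icc (-h) h).image fun v => ∑ c : Fin (d + 1), C (v c) * X ^ (c : ℕ)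

theorem mem_box {d : ℕ} {h : ℤ} {p : ℤ[X]} (hp : p.natDegree ≤ d) (hc : ∀ i, |p.coeff i| ≤ h) : p ∈ box d h := by
  unfold box
  rw [Finset.mem_image]
  refine ⟨fun c => p.coeff c, ?_, ?_⟩
  · rw [Fintype.mem_piFinset]
    intro c
    rw [Finset.mem_Icc]
    exact abs_le.1 (hc c)
  · conv_rhs => rw [p.as_sum_range' (d + 1) (Nat.lt_succ_of_le hp)]
    rw [Fin.sum_univ_eq_sum_range (fun i => C (p.coeff i) * X ^ i)]
    refine Finset.sum_congr rfl fun i _ => ?_
    rw [C_mul_X_pow_eq_monomial]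

theorem card_box (d N : ℕ) (hd : 1 ≤ d) (hdN : d ≤ N) : (box d (2 ^ (2 * N))).card ≤ 2 ^ (8 * N * d) := by
  have h1 : (box d (2 ^ (2 * N))).card ≤ (Finset.Icc (-(2 ^ (2 * N) : ℤ)) (2 ^ (2 * N))).card ^ (d + 1) := by
    unfold box
    refine Finset.card_image_le.trans ?_
    rw [Fintype.card_piFinset]
    simp
  have h2 : (Finset.Icc (-(2 ^ (2 * N) : ℤ)) (2 ^ (2 * N))).card ≤ 2 ^ (2 * N + 2) := by
    rw [Int.card_Icc]
    have h3 : (1 : ℤ) ≤ 2 ^ (2 * N) := one_le_pow₀ (by norm_num)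
    have h4 : (2 : ℤ) ^ (2 * N + 2) = 4 * 2 ^ (2 * N) := by rw [pow_add]; ring
    have h5 : ((2 ^ (2 * N + 2) : ℕ) : ℤ) = 2 ^ (2 * N + 2) := by push_cast; ring
    omega
  refine h1.trans ((Nat.pow_le_pow_left h2 _).trans ?_)
  rw [← pow_mul]
  apply Nat.pow_le_pow_right (by norm_num)
  have hN : 1 ≤ N := hd.trans hdN
  nlinarith [Nat.mul_le_mul hN hd, Nat.mul_le_mul_left N hd, Nat.mul_le_mul_right d hN]

theorem decay0 (T : Tree) : ∃ C : ℝ, 0 < C ∧ ∀ (y r : ℝ), 0 < r → P {z | |T.pt z - y| < r} ≤ ENNReal.ofReal (C * r ^ T.s) := by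
  obtain ⟨C, hC, hdec⟩ := T.decay
  have hl := T.len_pos 0 (fun _ => false)
  refine ⟨C * (1 / T.len 0 (fun _ => false)) ^ T.s, by positivity, fun y r hr => ?_⟩
  have h := hdec y r 0 (fun _ => false) hr
  rw [cyl_zero, univ_inter, measure_univ, mul_one] at h
  refine h.trans (le_of_eq ?_)
  congr 1
  rw [mul_assoc, ← Real.mul_rpow (by positivity) hr.le]
  congr 2
  ring

/-- exceptional sets -/
def Exc (T : Tree) (K : ℕ) (i : ℕ × ℕ) : Set Om :=
  {z | 1 ≤ i.1 ∧ i.1 ≤ i.2 ∧ ∃ q : ℤ[X], Irreducible q ∧ q.natDegree = i.1 ∧ MM q ≤ 2 ^ i.2 ∧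
    |aeval (T.pt z) q| < (1 / 2) ^ (K * i.2 * i.1)}

theorem coeff_le_pow {q : ℤ[X]} {N : ℕ} (hN : q.natDegree ≤ N) (hM : MM q ≤ 2 ^ N) (i : ℕ) :
    |q.coeff i| ≤ 2 ^ (2 * N) := by
  have h1 := coeff_le q i
  have h2 : (2 : ℝ) ^ q.natDegree ≤ 2 ^ N := pow_le_pow_right₀ (by norm_num) hN
  have h3 : 0 ≤ MM q := mahlerMeasure_nonneg _
  have h4 : (|q.coeff i| : ℝ) ≤ 2 ^ (2 * N) := by
    refine h1.trans ?_
    calc (2 : ℝ) ^ q.natDegree * MM q ≤ 2 ^ N * 2 ^ N := mul_le_mul h2 hM h3 (by positivity)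
      _ = 2 ^ (2 * N) := by rw [← pow_add]; congr 1; ring
  exact_mod_cast h4

theorem exc_le (T : Tree) : ∃ K : ℕ, ∃ C : ℝ, 0 < C ∧ ∀ i : ℕ × ℕ,
    P (Exc T K i) ≤ ENNReal.ofReal (C * ((1 / 2) ^ i.1 * (1 / 2) ^ i.2)) := by
  obtain ⟨C, hC, hdec⟩ := decay0 T
  have hs := T.s_pos
  obtain ⟨K', hK'⟩ := exists_nat_ge (11 / T.s)
  have hK's : 11 ≤ K' * T.s := by rwa [div_le_iff₀ hs] at hK'
  refine ⟨6 + K', C, hC, ?_⟩
  rintro ⟨d, N⟩
  by_cases hcond : 1 ≤ d ∧ d ≤ N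
  swap
  · have : Exc T (6 + K') (d, N) = ∅ := by
      rw [eq_empty_iff_forall_notMem]
      rintro z ⟨h1, h2, _⟩
      exact hcond ⟨h1, h2⟩
    rw [this, measure_empty]
    exact zero_le
  obtain ⟨hd, hdN⟩ := hcond
  have hN : 1 ≤ N := hd.trans hdN
  classical
  set ρ : ℝ := (1 / 2) ^ (K' * N * d) with hρ
  have hρ0 : 0 < ρ := by positivity
  have hρs : ρ ^ T.s ≤ (1 / 2) ^ (11 * N * d) := by
    rw [hρ, ← Real.rpow_natCast, ← Real.rpow_mul (by norm_num), ← Real.rpow_natCast]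
    apply Real.rpow_le_rpow_of_exponent_ge (by norm_num) (by norm_num)
    push_cast
    have : (0 : ℝ) ≤ (N : ℝ) * d := by positivity
    nlinarith
  have hsub : Exc T (6 + K') (d, N) ⊆ ⋃ q ∈ box d (2 ^ (2 * N)) , ⋃ w ∈ (cx q).roots.toFinset,
      {z | |T.pt z - w.re| < ρ ∧ q.natDegree ≤ d} := by
    rintro z ⟨_, _, q, hq, hqd, hqM, hz⟩
    simp only at hqd hqM hz
    have hq1 : 1 ≤ q.natDegree := by omega
    obtain ⟨w, hw1, hw2⟩ := sep hq hq1 (N := N) (by omega) hqM (T.pt z)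
    rw [mem_iUnion₂]
    refine ⟨q, mem_box hqd.le (coeff_le_pow (by omega) hqM), ?_⟩
    rw [mem_iUnion₂]
    refine ⟨w, Multiset.mem_toFinset.2 hw1, ?_, hqd.le⟩
    refine hw2.trans_lt ?_
    rw [hqd]
    calc 2 ^ (6 * N * d) * |aeval (T.pt z) q| < 2 ^ (6 * N * d) * (1 / 2) ^ ((6 + K') * N * d) :=
          mul_lt_mul_of_pos_left hz (by positivity)
      _ = ρ := by
        rw [hρ, show (6 + K') * N * d = 6 * N * d + K' * N * d by ring, pow_add, ← mul_assoc, ← mul_pow]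
        norm_num
  refine (measure_mono hsub).trans ((measure_biUnion_finset_le _ _).trans ?_)
  have hq : ∀ q ∈ box d (2 ^ (2 * N)), P (⋃ w ∈ (cx q).roots.toFinset, {z | |T.pt z - w.re| < ρ ∧ q.natDegree ≤ d}) ≤
      ENNReal.ofReal (2 ^ (N * d) * (C * (1 / 2) ^ (11 * N * d))) := by
    intro q _
    by_cases hqd : q.natDegree ≤ d
    swap
    · have : (⋃ w ∈ (cx q).roots.toFinset, {z : Om | |T.pt z - w.re| < ρ ∧ q.natDegree ≤ d}) = ∅ := by
        simp [hqd]
      rw [this, measure_empty]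
      exact zero_le
    refine (measure_biUnion_finset_le _ _).trans ?_
    have hw : ∀ w ∈ (cx q).roots.toFinset, P {z | |T.pt z - w.re| < ρ ∧ q.natDegree ≤ d} ≤
        ENNReal.ofReal (C * (1 / 2) ^ (11 * N * d)) := by
      intro w _
      refine (measure_mono (fun z hz => hz.1)).trans ((hdec w.re ρ hρ0).trans ?_)
      apply ENNReal.ofReal_le_ofReal
      exact mul_le_mul_of_nonneg_left hρs hC.le
    refine (Finset.sum_le_sum hw).trans ?_
    rw [Finset.sum_const, nsmul_eq_mul, ENNReal.ofReal_mul (p := (2 : ℝ) ^ (N * d)) (by positivity)]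
    apply mul_le_mul' _ le_rfl
    have h1 : (cx q).roots.toFinset.card ≤ d :=
      (Multiset.toFinset_card_le _).trans ((Polynomial.card_roots' _).trans ((natDegree_cx q).le.trans hqd))
    have h2 : d ≤ 2 ^ (N * d) := Nat.lt_two_pow_self.le.trans (Nat.pow_le_pow_right (by norm_num) (by nlinarith))
    have h3 : (((cx q).roots.toFinset.card : ℕ) : ENNReal) ≤ ((2 ^ (N * d) : ℕ) : ENNReal) := by
      exact_mod_cast h1.trans h2
    refine h3.trans (le_of_eq ?_)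
    rw [← ENNReal.ofReal_natCast]
    push_cast
    rfl
  refine (Finset.sum_le_sum hq).trans ?_
  rw [Finset.sum_const, nsmul_eq_mul]
  have h1 : (((box d (2 ^ (2 * N))).card : ℕ) : ENNReal) ≤ ((2 ^ (8 * N * d) : ℕ) : ENNReal) := by
    exact_mod_cast card_box d N hd hdN
  calc _ ≤ ((2 ^ (8 * N * d) : ℕ) : ENNReal) * ENNReal.ofReal (2 ^ (N * d) * (C * (1 / 2) ^ (11 * N * d))) := by gcongr
    _ = ENNReal.ofReal (2 ^ (8 * N * d) * (2 ^ (N * d) * (C * (1 / 2) ^ (11 * N * d)))) := by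
      rw [← ENNReal.ofReal_natCast, ← ENNReal.ofReal_mul (by positivity)]
      push_cast
      rfl
    _ ≤ _ := by
      apply ENNReal.ofReal_le_ofReal
      have h2 : (2 : ℝ) ^ (8 * N * d) * (2 ^ (N * d) * (C * (1 / 2) ^ (11 * N * d))) = C * (1 / 2) ^ (2 * N * d) := by
        rw [show 11 * N * d = 8 * N * d + (N * d + 2 * N * d) by ring, pow_add (1 / 2 : ℝ), pow_add (1 / 2 : ℝ)]
        have e1 : (2 : ℝ) ^ (8 * N * d) * (1 / 2) ^ (8 * N * d) = 1 := by rw [← mul_pow]; norm_num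
        have e2 : (2 : ℝ) ^ (N * d) * (1 / 2) ^ (N * d) = 1 := by rw [← mul_pow]; norm_num
        calc _ = C * (1 / 2) ^ (2 * N * d) * ((2 : ℝ) ^ (8 * N * d) * (1 / 2) ^ (8 * N * d)) *
            ((2 : ℝ) ^ (N * d) * (1 / 2) ^ (N * d)) := by ring
          _ = _ := by rw [e1, e2]; ring
      rw [h2, ← pow_add]
      apply mul_le_mul_of_nonneg_left _ hC.le
      apply pow_le_pow_of_le_one (by norm_num) (by norm_num)
      simp only
      nlinarith

theorem ae_exc (T : Tree) : ∃ K : ℕ, ∀ᵐ z ∂P, {i | z ∈ Exc T K i}.Finite := by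
  obtain ⟨K, C, hC, hle⟩ := exc_le T
  refine ⟨K, ae_finite_setOfPred_mem ?_⟩
  refine ne_top_of_le_ne_top ?_ (ENNReal.tsum_le_tsum hle)
  have hg : Summable fun n : ℕ => (1 / 2 : ℝ) ^ n := summable_geometric_of_lt_one (by norm_num) (by norm_num)
  have h1 : Summable fun i : ℕ × ℕ => (1 / 2 : ℝ) ^ i.1 * (1 / 2) ^ i.2 :=
    hg.mul_of_nonneg hg (fun n => by positivity) (fun n => by positivity)
  rw [← ENNReal.ofReal_tsum_of_nonneg (fun i => by positivity) (h1.mul_left C)]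
  exact ENNReal.ofReal_ne_top

/-- bound for irreducible polynomials -/
def HasIrr (α : ℝ) : Prop := ∃ K : ℕ, ∀ (q : ℤ[X]) (N : ℕ), Irreducible q → 1 ≤ q.natDegree → q.natDegree ≤ N →
  MM q ≤ 2 ^ N → (1 / 2) ^ (K * N * q.natDegree) ≤ |aeval α q|

theorem ae_hasIrr (T : Tree) : ∀ᵐ z ∂P, HasIrr (T.pt z) := by
  obtain ⟨K0, hK0⟩ := ae_exc T
  filter_upwards [hK0, ae_hasMult T] with z hz1 hz2
  obtain ⟨Nm, hNm⟩ : ∃ Nm : ℕ, ∀ i, z ∈ Exc T K0 i → i.2 ≤ Nm := by
    obtain ⟨b, hb⟩ := (hz1.image Prod.snd).bddAbove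
    exact ⟨b, fun i hi => hb ⟨i, hi, rfl⟩⟩
  set H : ℝ := 2 ^ (2 * Nm) with hH
  have hH1 : 1 ≤ H := one_le_pow₀ (by norm_num)
  obtain ⟨c, hc0, hCm⟩ := hz2.pos (Nm + 1) (by omega) H hH1
  obtain ⟨K1, hK1⟩ := exists_pow_lt_of_lt_one hc0 (by norm_num : (1 / 2 : ℝ) < 1)
  refine ⟨K0 + K1, fun q N hq hd hdN hM => ?_⟩
  have hN : 1 ≤ N := hd.trans hdN
  by_cases hex : z ∈ Exc T K0 (q.natDegree, N)
  · have hNN : N ≤ Nm := hNm _ hex
    have h1 := hCm q hq.ne_zero (by omega) (by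
      intro i
      have h2 := coeff_le_pow hdN hM i
      have h3 : (|(q.coeff i : ℝ)|) ≤ 2 ^ (2 * N) := by exact_mod_cast h2
      refine h3.trans ?_
      rw [hH]
      exact pow_le_pow_right₀ (by norm_num) (by omega))
    refine le_trans ?_ h1
    refine le_trans ?_ hK1.le
    apply pow_le_pow_of_le_one (by norm_num) (by norm_num)
    have : 1 ≤ N * q.natDegree := Nat.mul_le_mul hN hd
    nlinarith
  · have h1 : ¬ |aeval (T.pt z) q| < (1 / 2) ^ (K0 * N * q.natDegree) := fun h =>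
      hex ⟨hd, hdN, q, hq, rfl, hM, h⟩
    push Not at h1
    refine le_trans ?_ h1
    apply pow_le_pow_of_le_one (by norm_num) (by norm_num)
    nlinarith [Nat.zero_le (K1 * N * q.natDegree)]

/-- the transcendence measure uniform in the degree -/
def HasUnif (α : ℝ) : Prop := ∃ C : ℝ, 0 < C ∧ ∀ (k : ℕ) (p : ℤ[X]) (H : ℝ), 1 ≤ k → p ≠ 0 → p.natDegree ≤ k → 1 ≤ H →
  (∀ i, |(p.coeff i : ℝ)| ≤ H) → Real.exp (-(C * k * (k + Real.log H))) ≤ |aeval α p|

theorem log_irr {α : ℝ} {K : ℕ} (hK : ∀ (q : ℤ[X]) (N : ℕ), Irreducible q → 1 ≤ q.natDegree → q.natDegree ≤ N →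
    MM q ≤ 2 ^ N → (1 / 2) ^ (K * N * q.natDegree) ≤ |aeval α q|) (q : ℤ[X]) (hq : Irreducible q) :
    aeval α q ≠ 0 ∧ -((K : ℝ) * (2 * (q.natDegree : ℝ) ^ 2 + q.natDegree * Real.log (MM q))) ≤ Real.log |aeval α q| := by
  have hM := one_le_MM hq.ne_zero
  have hlM : 0 ≤ Real.log (MM q) := Real.log_nonneg hM
  rcases Nat.eq_zero_or_pos q.natDegree with h0 | hd
  · have h1 : q = C (q.coeff 0) := eq_C_of_natDegree_eq_zero h0
    have h2 : q.coeff 0 ≠ 0 := by
      intro h; rw [h, C_0] at h1; exact hq.ne_zero h1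
    have h3 : aeval α q = ((q.coeff 0 : ℤ) : ℝ) := by
      conv_lhs => rw [h1]
      rw [aeval_C]; rfl
    rw [h3, h0]
    have h4 : (1 : ℝ) ≤ |((q.coeff 0 : ℤ) : ℝ)| := by exact_mod_cast Int.one_le_abs h2
    refine ⟨by exact_mod_cast h2, ?_⟩
    simp only [Nat.cast_zero]
    have := Real.log_nonneg h4
    nlinarith
  · set d := q.natDegree with hdd
    set N := d + ⌈Real.log (MM q) / Real.log 2⌉₊ with hN
    have hl2 : 0 < Real.log 2 := Real.log_pos (by norm_num)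
    have h1 : MM q ≤ 2 ^ N := by
      have h2 : Real.log (MM q) / Real.log 2 ≤ N := by
        rw [hN]; push_cast
        have := Nat.le_ceil (Real.log (MM q) / Real.log 2)
        have h3 : (0 : ℝ) ≤ d := Nat.cast_nonneg _
        linarith
      rw [div_le_iff₀ hl2] at h2
      have h3 : (2 : ℝ) ^ N = Real.exp (N * Real.log 2) := by
        rw [Real.exp_nat_mul, Real.exp_log (by norm_num)]
      rw [h3, ← Real.exp_log (by linarith : 0 < MM q)]
      exact Real.exp_le_exp.2 h2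
    have h2 := hK q N hq hd (by omega) h1
    have h3 : 0 < |aeval α q| := lt_of_lt_of_le (by positivity) h2
    refine ⟨abs_pos.1 h3, ?_⟩
    have h4 := Real.log_le_log (by positivity) h2
    refine le_trans ?_ h4
    rw [Real.log_pow, Real.log_div (by norm_num) (by norm_num), Real.log_one, zero_sub]
    push_cast
    have h5 : (N : ℝ) * Real.log 2 ≤ 2 * d + Real.log (MM q) := by
      have h6 : (N : ℝ) ≤ d + (Real.log (MM q) / Real.log 2 + 1) := by
        rw [hN]; push_cast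
        have := (Nat.ceil_lt_add_one (div_nonneg hlM hl2.le)).le
        linarith
      have h7 : (1 : ℝ) ≤ d := by exact_mod_cast hd
      have h8 : Real.log 2 ≤ 1 := by
        have := Real.log_le_sub_one_of_pos (by norm_num : (0 : ℝ) < 2)
        linarith
      calc (N : ℝ) * Real.log 2 ≤ (d + (Real.log (MM q) / Real.log 2 + 1)) * Real.log 2 := by gcongr
        _ = (d + 1) * Real.log 2 + Real.log (MM q) := by field_simp; ring
        _ ≤ 2 * d + Real.log (MM q) := by nlinarith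
    have h9 : (K : ℝ) * N * d * Real.log 2 ≤ K * (2 * (d : ℝ) ^ 2 + d * Real.log (MM q)) := by
      calc (K : ℝ) * N * d * Real.log 2 = K * d * (N * Real.log 2) := by ring
        _ ≤ K * d * (2 * d + Real.log (MM q)) := by gcongr
        _ = _ := by ring
    linarith

theorem log_all {α : ℝ} {K : ℕ} (hK : ∀ (q : ℤ[X]) (N : ℕ), Irreducible q → 1 ≤ q.natDegree → q.natDegree ≤ N →
    MM q ≤ 2 ^ N → (1 / 2) ^ (K * N * q.natDegree) ≤ |aeval α q|) (p : ℤ[X]) : p ≠ 0 →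
    aeval α p ≠ 0 ∧ -((K : ℝ) * (2 * (p.natDegree : ℝ) ^ 2 + p.natDegree * Real.log (MM p))) ≤ Real.log |aeval α p| := by
  induction p using WfDvdMonoid.induction_on_irreducible with
  | zero => intro h; exact absurd rfl h
  | unit u hu =>
    intro _
    obtain ⟨r, hr, rfl⟩ := Polynomial.isUnit_iff.1 hu
    rw [aeval_C, natDegree_C]
    have h1 : r ≠ 0 := hr.ne_zero
    have h2 : (1 : ℝ) ≤ |((r : ℤ) : ℝ)| := by exact_mod_cast Int.one_le_abs h1
    refine ⟨by simpa using h1, ?_⟩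
    have h3 := Real.log_nonneg h2
    simp only [Nat.cast_zero]
    have h4 : algebraMap ℤ ℝ r = ((r : ℤ) : ℝ) := rfl
    rw [h4]
    nlinarith
  | mul a i ha hi ih =>
    intro _
    obtain ⟨h1, h2⟩ := log_irr hK i hi
    obtain ⟨h3, h4⟩ := ih ha
    rw [map_mul, abs_mul, Real.log_mul (abs_ne_zero.2 h1) (abs_ne_zero.2 h3), MM_mul, natDegree_mul hi.ne_zero ha]
    refine ⟨mul_ne_zero h1 h3, ?_⟩
    have hM1 := one_le_MM hi.ne_zero
    have hM2 := one_le_MM ha
    have hl1 := Real.log_nonneg hM1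
    have hl2 := Real.log_nonneg hM2
    rw [Real.log_mul (by linarith) (by linarith)]
    push_cast
    set x : ℝ := (i.natDegree : ℝ)
    set y : ℝ := (a.natDegree : ℝ)
    have hx : 0 ≤ x := Nat.cast_nonneg _
    have hy : 0 ≤ y := Nat.cast_nonneg _
    have hKK : (0 : ℝ) ≤ K := Nat.cast_nonneg _
    have h5 : (2 * x ^ 2 + x * Real.log (MM i)) + (2 * y ^ 2 + y * Real.log (MM a)) ≤
        2 * (x + y) ^ 2 + (x + y) * (Real.log (MM i) + Real.log (MM a)) := by
      nlinarith [mul_nonneg hx hy, mul_nonneg hx hl2, mul_nonneg hy hl1]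
    have h6 := mul_le_mul_of_nonneg_left h5 hKK
    linarith

theorem HasIrr.unif {α : ℝ} (h : HasIrr α) : HasUnif α := by
  obtain ⟨K, hK⟩ := h
  refine ⟨3 * K + 1, by positivity, fun k p H hk hp hdeg hH hcoef => ?_⟩
  obtain ⟨h1, h2⟩ := log_all hK p hp
  have h3 : 0 < |aeval α p| := abs_pos.2 h1
  rw [← Real.exp_log h3]
  apply Real.exp_le_exp.2
  refine le_trans ?_ h2
  have hM1 := one_le_MM hp
  have hl1 := Real.log_nonneg hM1
  have hlH := Real.log_nonneg hH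
  have hkR : (1 : ℝ) ≤ k := by exact_mod_cast hk
  have hdR : (p.natDegree : ℝ) ≤ k := by exact_mod_cast hdeg
  have hd0 : (0 : ℝ) ≤ p.natDegree := Nat.cast_nonneg _
  have hM : MM p ≤ ((k : ℝ) + 1) * H := by
    have h4 := mahlerMeasure_le_sum_norm_coeff (cx p)
    refine h4.trans ?_
    rw [Polynomial.sum_over_range' _ (by simp) (k + 1) (by rw [natDegree_cx]; omega)]
    have h5 : ∀ i ∈ Finset.range (k + 1), ‖(cx p).coeff i‖ ≤ H := by
      intro i _
      have h6 : (cx p).coeff i = (p.coeff i : ℂ) := by unfold cx; rw [coeff_map]; rfl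
      rw [h6, Complex.norm_intCast]
      exact hcoef i
    refine (Finset.sum_le_sum h5).trans (le_of_eq ?_)
    rw [Finset.sum_const, Finset.card_range, nsmul_eq_mul]
    push_cast
    ring
  have hlM : Real.log (MM p) ≤ k + Real.log H := by
    have h4 := Real.log_le_log (by linarith) hM
    rw [Real.log_mul (by positivity) (by linarith)] at h4
    have h5 := Real.log_le_sub_one_of_pos (by positivity : (0 : ℝ) < (k : ℝ) + 1)
    linarith
  have hKK : (0 : ℝ) ≤ K := Nat.cast_nonneg _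
  have h4 : 2 * (p.natDegree : ℝ) ^ 2 + p.natDegree * Real.log (MM p) ≤ 3 * k * (k + Real.log H) := by
    have h5 : (p.natDegree : ℝ) ^ 2 ≤ (k : ℝ) ^ 2 := pow_le_pow_left₀ hd0 hdR 2
    have h6 : p.natDegree * Real.log (MM p) ≤ k * (k + Real.log H) := mul_le_mul hdR hlM hl1 (by positivity)
    have h7 : 0 ≤ (k : ℝ) * Real.log H := by positivity
    nlinarith
  have h5 := mul_le_mul_of_nonneg_left h4 hKK
  have h6 : 0 ≤ (k : ℝ) * (k + Real.log H) := by positivity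
  nlinarith

theorem ae_good (T : Tree) : ∀ᵐ z ∂P, HasMult (T.pt z) ∧ HasUnif (T.pt z) := by
  filter_upwards [ae_hasMult T, ae_hasIrr T] with z h1 h2
  exact ⟨h1, h2.unif⟩

end Pool.Agent.Helper46.TB
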