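import Pool.Agent.Helper46.TB.Deg
import Pool.Agent.Helper46.TB.Siegel

/-!
# Few powers of `α` in a short window are exponentially near to a polynomial modulo one
-/

set_option autoImplicit false

namespace Pool.Agent.Helper46.TB

open Polynomial Finset Filter

/-- distance to the nearest integer -/
noncomputable def dist1 (x : ℝ) : ℝ := |x - round x|

theorem core {α : ℝ} (hα : 1 < α) {C0 : ℝ}
    (hm : ∀ (k : ℕ) (p : ℤ[X]) (H : ℝ), 1 ≤ k → p ≠ 0 → p.natDegree ≤ k → 1 ≤ H →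
      (∀ i, |(p.coeff i : ℝ)| ≤ H) →
      Real.exp (-(C0 * (k : ℝ) ^ 5 * (1 + Real.log (1 + Real.log H)))) ≤
        |aeval α p| * ∏ i : Fin k, max 1 |(p.coeff (i + 1) : ℝ)|)
    (r D : ℕ) (hD : 1 ≤ D) {d : ℕ} (hd : d = D + r + 1) (G : ℕ) (hG : 1 ≤ G) (n : Fin (d + 1) → ℕ) (hn : StrictMono n)
    (hnG : ∀ m, n m ≤ n 0 + G) (ξ : ℝ) (P : ℝ[X]) (hP : P.natDegree ≤ r) (ρ : ℝ) (hρ1 : ρ ≤ 1)
    (hbad : ∀ m, dist1 (ξ * α ^ (n m) - P.eval (n m : ℝ)) ≤ ρ) :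
    ∃ V : ℕ, 1 ≤ V ∧ (V : ℝ) ^ D ≤ (((d : ℝ) + 2) * G ^ r) ^ (r + 1) * (5 * ((d : ℝ) + 1)) * (|ξ| * α ^ (n 0) * α ^ G + 1) ∧
      |ξ| * α ^ (n 0) * Real.exp (-(C0 * (G : ℝ) ^ 5 * (1 + Real.log (1 + Real.log V)))) ≤ ((d : ℝ) + 1) * (V : ℝ) ^ (d + 2) * ρ := by
  have hα0 : 0 < α := by linarith
  have hGR : (1 : ℝ) ≤ G := by exact_mod_cast hG
  set Y : ℝ := |ξ| * α ^ (n 0) with hY
  have hY0 : 0 ≤ Y := by positivity
  set Z : ℝ := Y * α ^ G + 1 with hZ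
  have hZ1 : 1 ≤ Z := by rw [hZ]; have : 0 ≤ Y * α ^ G := by positivity
                         linarith
  have hdR : (0 : ℝ) ≤ d := Nat.cast_nonneg d
  set S : ℝ := (((d : ℝ) + 2) * G ^ r) ^ (r + 1) * (5 * ((d : ℝ) + 1)) * Z with hS
  have hGr : (1 : ℝ) ≤ (G : ℝ) ^ r := one_le_pow₀ hGR
  have hS1 : 1 ≤ S := by
    have h1 : 1 ≤ (((d : ℝ) + 2) * G ^ r) ^ (r + 1) := one_le_pow₀ (by nlinarith)
    have h2 : 1 ≤ (5 * ((d : ℝ) + 1)) := by linarith
    rw [hS]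
    exact one_le_mul_of_one_le_of_one_le (one_le_mul_of_one_le_of_one_le h1 h2) hZ1
  have hS0 : 0 ≤ S := by linarith
  have hDR : (D : ℝ) ≠ 0 := by have : (1 : ℝ) ≤ D := by exact_mod_cast hD
                               linarith
  set R : ℝ := S ^ ((1 : ℝ) / D) with hR
  have hR1 : 1 ≤ R := Real.one_le_rpow hS1 (by positivity)
  have hRD : R ^ D = S := by
    rw [hR, ← Real.rpow_natCast, ← Real.rpow_mul hS0, one_div, inv_mul_cancel₀ hDR, Real.rpow_one]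
  set V : ℕ := ⌊R⌋₊ with hV
  have hV1 : 1 ≤ V := by rw [hV, Nat.one_le_floor_iff]; exact hR1
  have hVR : (V : ℝ) ≤ R := Nat.floor_le (by linarith)
  have hVR2 : R < V + 1 := Nat.lt_floor_add_one R
  have hVD : (V : ℝ) ^ D ≤ S := by rw [← hRD]; exact pow_le_pow_left₀ (Nat.cast_nonneg _) hVR D
  have hVD2 : S < ((V : ℝ) + 1) ^ D := by
    rw [← hRD]; exact pow_lt_pow_left₀ hVR2 (by linarith) (by omega)
  refine ⟨V, hV1, hVD, ?_⟩
  -- points
  have hn0 : ∀ m, n 0 ≤ n m := fun m => hn.monotone (Fin.zero_le m)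
  set j : Fin (d + 1) → ℕ := fun m => n m - n 0 with hj
  have hjG : ∀ m, j m ≤ G := fun m => by have := hnG m; simp only [hj]; omega
  have hnj : ∀ m, n 0 + j m = n m := fun m => by have := hn0 m; simp only [hj]; omega
  have hjinj : Function.Injective j := fun a b hab => by
    apply hn.injective
    rw [← hnj a, ← hnj b, hab]
  set b : Fin (d + 1) → ℤ := fun m => round (ξ * α ^ (n m) - P.eval (n m : ℝ)) with hb
  set β : Fin (d + 1) → ℝ := fun m => (b m : ℝ) + P.eval (n m : ℝ) with hβ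
  have hβ1 : ∀ m, |ξ * α ^ (n m) - β m| ≤ ρ := fun m => by
    have h1 := hbad m
    unfold dist1 at h1
    have h2 : ξ * α ^ (n m) - β m = ξ * α ^ (n m) - P.eval (n m : ℝ) - (round (ξ * α ^ (n m) - P.eval (n m : ℝ)) : ℤ) := by
      simp only [hβ, hb]; ring
    rw [h2]; exact h1
  have hβZ : ∀ m, |β m| ≤ Z := fun m => by
    have h1 : |β m| ≤ |ξ * α ^ (n m)| + |ξ * α ^ (n m) - β m| := by
      have : β m = ξ * α ^ (n m) - (ξ * α ^ (n m) - β m) := by ring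
      calc |β m| = |ξ * α ^ (n m) - (ξ * α ^ (n m) - β m)| := by rw [← this]
        _ ≤ _ := abs_sub _ _
    have h2 : |ξ * α ^ (n m)| ≤ Y * α ^ G := by
      rw [abs_mul, abs_of_pos (by positivity : 0 < α ^ (n m)), ← hnj m, pow_add, ← mul_assoc, ← hY]
      apply mul_le_mul_of_nonneg_left _ hY0
      exact pow_le_pow_right₀ hα.le (hjG m)
    have h3 := hβ1 m
    rw [hZ]
    linarith
  have hVR0 : (0 : ℝ) ≤ V := Nat.cast_nonneg V
  obtain ⟨x, hx0, hxV, hxr, hxβ⟩ := siegel r j G hG hjG β Z hβZ V (by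
    have e1 : ((d : ℝ) + 1) * V * G ^ r + 1 ≤ (((d : ℝ) + 2) * G ^ r) * ((V : ℝ) + 1) := by nlinarith
    have e2 : 2 * (((d : ℝ) + 1) * V * Z) + 1 ≤ (5 * ((d : ℝ) + 1)) * Z * ((V : ℝ) + 1) := by
      have h1 : 0 ≤ ((d : ℝ) + 1) * V * Z := by positivity
      have h2 : 1 ≤ ((d : ℝ) + 1) * Z := by nlinarith
      nlinarith
    have e3 : 0 ≤ ((d : ℝ) + 1) * V * G ^ r + 1 := by positivity
    calc (((d : ℝ) + 1) * V * G ^ r + 1) ^ (r + 1) * (2 * (((d : ℝ) + 1) * V * Z) + 1)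
        ≤ ((((d : ℝ) + 2) * G ^ r) * ((V : ℝ) + 1)) ^ (r + 1) * ((5 * ((d : ℝ) + 1)) * Z * ((V : ℝ) + 1)) :=
          mul_le_mul (pow_le_pow_left₀ e3 e1 _) e2 (by positivity) (by positivity)
      _ = S * ((V : ℝ) + 1) ^ (r + 2) := by rw [mul_pow, hS]; ring
      _ < ((V : ℝ) + 1) ^ D * ((V : ℝ) + 1) ^ (r + 2) := mul_lt_mul_of_pos_right hVD2 (by positivity)
      _ = ((V : ℝ) + 1) ^ (d + 1) := by rw [← pow_add, hd]; congr 1)
  -- the combination of `β` vanishes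
  have hPz : ∑ m, (x m : ℝ) * P.eval (n m : ℝ) = 0 := by
    have h1 := sum_poly_zero x j hxr (P.comp (X + C ((n 0 : ℕ) : ℝ))) (by
      refine natDegree_comp_le.trans ?_
      rw [natDegree_X_add_C, mul_one]
      exact hP)
    rw [← h1]
    refine Finset.sum_congr rfl fun m _ => ?_
    rw [eval_comp, eval_add, eval_X, eval_C]
    congr 2
    rw [← hnj m]
    push_cast
    ring
  have hsumβ : ∑ m, (x m : ℝ) * β m = ((∑ m, x m * b m : ℤ) : ℝ) := by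
    simp only [hβ, mul_add, Finset.sum_add_distrib, hPz, add_zero]
    push_cast
    rfl
  have hβ0 : ∑ m, (x m : ℝ) * β m = 0 := by
    rw [hsumβ] at hxβ ⊢
    have h1 : |(∑ m, x m * b m : ℤ)| < 1 := by exact_mod_cast hxβ
    rw [Int.abs_lt_one_iff.1 h1]
    simp
  -- upper bound for the polynomial
  have hup : |aeval α (sp x j)| * Y ≤ ((d : ℝ) + 1) * V * ρ := by
    have h1 : ξ * α ^ (n 0) * aeval α (sp x j) = ∑ m, (x m : ℝ) * (ξ * α ^ (n m) - β m) := by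
      have h2 : ∑ m, (x m : ℝ) * (ξ * α ^ (n m) - β m) = ∑ m, (x m : ℝ) * (ξ * α ^ (n m)) := by
        simp only [mul_sub, Finset.sum_sub_distrib, hβ0, sub_zero]
      rw [h2, aeval_sp, Finset.mul_sum]
      refine Finset.sum_congr rfl fun m _ => ?_
      rw [← hnj m, pow_add]
      ring
    have h2 : |aeval α (sp x j)| * Y = |ξ * α ^ (n 0) * aeval α (sp x j)| := by
      rw [abs_mul, abs_mul, abs_of_pos (by positivity : 0 < α ^ (n 0)), hY]
      ring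
    rw [h2, h1]
    refine (Finset.abs_sum_le_sum_abs _ _).trans ?_
    have h3 : ∀ m ∈ (Finset.univ : Finset (Fin (d + 1))), |(x m : ℝ) * (ξ * α ^ (n m) - β m)| ≤ V * ρ := by
      intro m _
      rw [abs_mul]
      exact mul_le_mul (by exact_mod_cast hxV m) (hβ1 m) (abs_nonneg _) hVR0
    refine (Finset.sum_le_sum h3).trans (le_of_eq ?_)
    rw [Finset.sum_const, Finset.card_univ, Fintype.card_fin, nsmul_eq_mul]
    push_cast
    ring
  have hlow := hm G (sp x j) V hG (sp_ne_zero x j hjinj hx0) (natDegree_sp x j hjG) (by exact_mod_cast hV1)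
    (abs_coeff_sp_le x j hjinj hxV)
  have hprod := prod_sp_le x j hjinj hV1 hxV G
  have h1 : Real.exp (-(C0 * (G : ℝ) ^ 5 * (1 + Real.log (1 + Real.log V)))) ≤ |aeval α (sp x j)| * (V : ℝ) ^ (d + 1) :=
    hlow.trans (mul_le_mul_of_nonneg_left hprod (abs_nonneg _))
  calc Y * Real.exp (-(C0 * (G : ℝ) ^ 5 * (1 + Real.log (1 + Real.log V)))) ≤ Y * (|aeval α (sp x j)| * (V : ℝ) ^ (d + 1)) :=
        mul_le_mul_of_nonneg_left h1 hY0
    _ = (|aeval α (sp x j)| * Y) * (V : ℝ) ^ (d + 1) := by ring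
    _ ≤ (((d : ℝ) + 1) * V * ρ) * (V : ℝ) ^ (d + 1) := mul_le_mul_of_nonneg_right hup (by positivity)
    _ = _ := by ring

theorem log_gen (r : ℕ) (a g f z : ℝ) (ha : 0 < a) (hg : 0 < g) (hf : 0 < f) (hz : 0 < z) :
    Real.log ((a * g ^ r) ^ (r + 1) * f * z) =
      ((r : ℝ) + 1) * (Real.log a + r * Real.log g) + Real.log f + Real.log z := by
  rw [Real.log_mul (by positivity) hz.ne', Real.log_mul (by positivity) hf.ne', Real.log_pow,
    Real.log_mul ha.ne' (by positivity), Real.log_pow]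
  push_cast
  ring

theorem log_gen2 {Y F a v e : ℝ} (n : ℕ) (hY : 0 < Y) (ha : 0 < a) (hv : 0 < v)
    (h : Y * Real.exp (-F) ≤ a * v ^ n * Real.exp (-e)) : Real.log Y - F ≤ Real.log a + n * Real.log v - e := by
  have h1 := Real.log_le_log (by positivity) h
  rw [Real.log_mul hY.ne' (Real.exp_pos _).ne', Real.log_exp, Real.log_mul (by positivity) (Real.exp_pos _).ne',
    Real.log_mul ha.ne' (by positivity), Real.log_exp, Real.log_pow] at h1
  linarith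

/-- a window of length `N ^ γ` contains at most `d` exceptional integers -/
theorem window_bound {α : ℝ} (hα : 1 < α) (h : HasMult α) (r : ℕ) (A ε : ℝ) (hA : 0 ≤ A) (hε : 0 < ε) :
    ∃ d : ℕ, ∃ γ : ℝ, 0 < γ ∧ γ < 1 ∧ ∀ᶠ N : ℕ in atTop, ∀ ξ : ℝ,
      Real.exp (-(ε / 2 * N)) ≤ |ξ| → |ξ| ≤ Real.exp (A * N) → ∀ P : ℝ[X], P.natDegree ≤ r →
      ∀ n : Fin (d + 1) → ℕ, StrictMono n → (∀ m, n m ≤ N) →
      (∀ m, n m ≤ n 0 + ⌊(N : ℝ) ^ γ⌋₊) →
      ¬ ∀ m, dist1 (ξ * α ^ (n m) - P.eval (n m : ℝ)) ≤ Real.exp (-(ε * N)) := by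
  obtain ⟨C0, hC0, hm⟩ := h
  have hα0 : 0 < α := by linarith
  have hlogα : 0 ≤ Real.log α := Real.log_nonneg hα.le
  set A' : ℝ := A + Real.log α with hA'
  have hA'0 : 0 ≤ A' := by rw [hA']; linarith
  obtain ⟨D, hD⟩ := exists_nat_ge (((r : ℝ) + 3) + 4 * ((r : ℝ) + 3) * A' / ε)
  have hr0 : (0 : ℝ) ≤ r := Nat.cast_nonneg r
  have hq0 : 0 ≤ 4 * ((r : ℝ) + 3) * A' / ε := by positivity
  have hD1 : (r : ℝ) + 3 ≤ D := by linarith
  have hD2 : 4 * ((r : ℝ) + 3) * A' / ε ≤ D := by linarith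
  have hDpos : (0 : ℝ) < D := by linarith
  have hDnat : 1 ≤ D := by
    have : (1 : ℝ) ≤ D := by linarith
    exact_mod_cast this
  set d : ℕ := D + r + 1 with hd
  have hdR : (0 : ℝ) ≤ d := Nat.cast_nonneg d
  set s0 : ℝ := ((r : ℝ) + 1) * Real.log ((d : ℝ) + 2) + Real.log (5 * ((d : ℝ) + 1)) + Real.log 2 with hs0
  have hs0' : 0 ≤ s0 := by
    have h1 : 0 ≤ Real.log ((d : ℝ) + 2) := Real.log_nonneg (by linarith)
    have h2 : 0 ≤ Real.log (5 * ((d : ℝ) + 1)) := Real.log_nonneg (by linarith)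
    have h3 : 0 ≤ Real.log 2 := Real.log_nonneg (by norm_num)
    positivity
  set K1 : ℝ := s0 + ((r : ℝ) + 1) * r + Real.log α with hK1
  have hK10 : 0 ≤ K1 := by positivity
  set K2 : ℝ := K1 + A' with hK2
  have hK20 : 0 ≤ K2 := by positivity
  set K3 : ℝ := C0 * (1 + 4 * (1 + K2) ^ (1 / 4 : ℝ)) + Real.log ((d : ℝ) + 1) + 2 * K1 with hK3
  have hK30 : 0 ≤ K3 := by
    have h1 : 0 ≤ Real.log ((d : ℝ) + 1) := Real.log_nonneg (by linarith)
    positivity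
  refine ⟨d, 1 / 10, by norm_num, by norm_num, ?_⟩
  have hev : ∀ᶠ N : ℕ in atTop, 4 * K3 / ε < (N : ℝ) ^ (1 / 4 : ℝ) :=
    ((tendsto_rpow_atTop (by norm_num : (0 : ℝ) < 1 / 4)).comp tendsto_natCast_atTop_atTop).eventually_gt_atTop _
  filter_upwards [hev, eventually_ge_atTop 1] with N hN hN1
  intro ξ hξ1 hξ2 P hP n hn hnN hnG hbad
  have hNR : (1 : ℝ) ≤ N := by exact_mod_cast hN1
  have hN0 : (0 : ℝ) < N := by linarith
  set G : ℕ := ⌊(N : ℝ) ^ (1 / 10 : ℝ)⌋₊ with hG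
  have hpow1 : (1 : ℝ) ≤ (N : ℝ) ^ (1 / 10 : ℝ) := Real.one_le_rpow hNR (by norm_num)
  have hG1 : 1 ≤ G := by rw [hG, Nat.one_le_floor_iff]; exact hpow1
  have hGR : (1 : ℝ) ≤ G := by exact_mod_cast hG1
  have hGN : (G : ℝ) ≤ (N : ℝ) ^ (1 / 10 : ℝ) := Nat.floor_le (by positivity)
  have hρ1 : Real.exp (-(ε * N)) ≤ 1 := by
    rw [Real.exp_le_one_iff]
    have : 0 ≤ ε * N := by positivity
    linarith
  obtain ⟨V, hV1, hV2, hV3⟩ := core hα hm r D hDnat hd G hG1 n hn hnG ξ P hP (Real.exp (-(ε * N))) hρ1 hbad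
  have hVR : (1 : ℝ) ≤ V := by exact_mod_cast hV1
  have hξ0 : 0 < |ξ| := lt_of_lt_of_le (Real.exp_pos _) hξ1
  set Y : ℝ := |ξ| * α ^ (n 0) with hY
  have hY0 : 0 < Y := by positivity
  set y : ℝ := Real.log Y with hy
  have hy1 : -(ε / 2 * N) ≤ y := by
    rw [hy, Real.le_log_iff_exp_le hY0]
    refine hξ1.trans ?_
    rw [hY]
    exact le_mul_of_one_le_right hξ0.le (one_le_pow₀ hα.le)
  have hy2 : y ≤ A' * N := by
    rw [hy, hY, Real.log_mul hξ0.ne' (by positivity), Real.log_pow]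
    have h1 : Real.log |ξ| ≤ A * N := by rw [Real.log_le_iff_le_exp hξ0]; exact hξ2
    have h2 : ((n 0 : ℕ) : ℝ) ≤ N := by exact_mod_cast hnN 0
    have h3 : ((n 0 : ℕ) : ℝ) * Real.log α ≤ N * Real.log α := mul_le_mul_of_nonneg_right h2 hlogα
    rw [hA']
    linarith
  set yp : ℝ := max y 0 with hyp
  have hyp0 : 0 ≤ yp := le_max_right _ _
  have hypy : y ≤ yp := le_max_left _ _
  have hyp1 : yp ≤ A' * N := max_le hy2 (by positivity)
  have hyp2 : yp - y ≤ ε / 2 * N := by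
    rcases le_total y 0 with h0 | h0
    · rw [hyp, max_eq_right h0]; linarith
    · rw [hyp, max_eq_left h0, sub_self]; positivity
  have hZ : Real.log (Y * α ^ G + 1) ≤ Real.log 2 + yp + G * Real.log α := by
    have h1 : Y * α ^ G + 1 ≤ 2 * Real.exp yp * α ^ G := by
      have h2 : Y ≤ Real.exp yp := by
        rw [← Real.exp_log hY0]; exact Real.exp_le_exp.2 hypy
      have h3 : 1 ≤ Real.exp yp := Real.one_le_exp hyp0
      have h4 : 1 ≤ α ^ G := one_le_pow₀ hα.le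
      have h5 : Y * α ^ G ≤ Real.exp yp * α ^ G := mul_le_mul_of_nonneg_right h2 (by positivity)
      have h6 : 1 ≤ Real.exp yp * α ^ G := one_le_mul_of_one_le_of_one_le h3 h4
      linarith
    have h2 := Real.log_le_log (by positivity) h1
    rw [Real.log_mul (by positivity) (by positivity), Real.log_mul (by norm_num) (Real.exp_pos _).ne', Real.log_exp,
      Real.log_pow] at h2
    exact h2
  have hDlogV : (D : ℝ) * Real.log V ≤ K1 * G + yp := by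
    have h1 := Real.log_le_log (by positivity) hV2
    rw [Real.log_pow, log_gen r _ _ _ _ (by positivity) (by positivity) (by positivity) (by positivity)] at h1
    have h2 : Real.log (G : ℝ) ≤ G := (Real.log_le_sub_one_of_pos (by linarith)).trans (by linarith)
    have h3 : ((r : ℝ) + 1) * (r * Real.log G) ≤ ((r : ℝ) + 1) * (r * G) := by gcongr
    have h4 : s0 ≤ s0 * G := le_mul_of_one_le_right hs0' hGR
    have h5 : Real.log α * G = G * Real.log α := mul_comm _ _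
    calc (D : ℝ) * Real.log V ≤ ((r : ℝ) + 1) * (Real.log ((d : ℝ) + 2) + r * Real.log G) +
          Real.log (5 * ((d : ℝ) + 1)) + Real.log (Y * α ^ G + 1) := h1
      _ ≤ ((r : ℝ) + 1) * (Real.log ((d : ℝ) + 2) + r * Real.log G) +
          Real.log (5 * ((d : ℝ) + 1)) + (Real.log 2 + yp + G * Real.log α) := by linarith
      _ = s0 + ((r : ℝ) + 1) * (r * Real.log G) + G * Real.log α + yp := by rw [hs0]; ring
      _ ≤ s0 * G + ((r : ℝ) + 1) * (r * G) + G * Real.log α + yp := by linarith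
      _ = K1 * G + yp := by rw [hK1]; ring
  have hlogV0 : 0 ≤ Real.log V := Real.log_nonneg hVR
  have hlogV1 : Real.log V ≤ K1 * G + yp := by
    refine le_trans ?_ hDlogV
    exact le_mul_of_one_le_left hlogV0 (by linarith)
  have hmain : y - C0 * (G : ℝ) ^ 5 * (1 + Real.log (1 + Real.log V)) ≤
      Real.log ((d : ℝ) + 1) + ((d : ℝ) + 2) * Real.log V - ε * N := by
    have h1 := log_gen2 (d + 2) hY0 (by positivity) (by positivity) hV3
    push_cast at h1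
    exact h1
  have hdlogV : ((d : ℝ) + 2) * Real.log V ≤ 2 * K1 * G + yp + ε / 4 * N := by
    have h1 : ((d : ℝ) + 2) * Real.log V = D * Real.log V + ((r : ℝ) + 3) * Real.log V := by
      rw [hd]; push_cast; ring
    have h2 : ((r : ℝ) + 3) * Real.log V ≤ ((r : ℝ) + 3) / D * (K1 * G + yp) := by
      rw [div_mul_eq_mul_div, le_div_iff₀ hDpos]
      calc ((r : ℝ) + 3) * Real.log V * D = ((r : ℝ) + 3) * (D * Real.log V) := by ring
        _ ≤ ((r : ℝ) + 3) * (K1 * G + yp) := by gcongr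
    have h3 : ((r : ℝ) + 3) / D ≤ 1 := by rw [div_le_one hDpos]; exact hD1
    have h4 : ((r : ℝ) + 3) / D * yp ≤ ε / 4 * N := by
      have h5 : ((r : ℝ) + 3) / D * yp ≤ ((r : ℝ) + 3) / D * (A' * N) := by gcongr
      refine h5.trans ?_
      have h6 : ((r : ℝ) + 3) * A' / D ≤ ε / 4 := by
        rw [div_le_iff₀ hε] at hD2
        rw [div_le_iff₀ hDpos]
        linarith
      calc ((r : ℝ) + 3) / D * (A' * N) = ((r : ℝ) + 3) * A' / D * N := by ring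
        _ ≤ ε / 4 * N := by gcongr
    have h5 : ((r : ℝ) + 3) / D * (K1 * G) ≤ K1 * G := mul_le_of_le_one_left (by positivity) h3
    rw [h1]
    linarith
  have hkey : ε / 4 * N ≤ Real.log ((d : ℝ) + 1) + 2 * K1 * G + C0 * (G : ℝ) ^ 5 * (1 + Real.log (1 + Real.log V)) := by
    linarith
  -- bound the right side by `K3 * N ^ (3/4)`
  have hN34 : (1 : ℝ) ≤ (N : ℝ) ^ (3 / 4 : ℝ) := Real.one_le_rpow hNR (by norm_num)
  have hG34 : (G : ℝ) ≤ (N : ℝ) ^ (3 / 4 : ℝ) := hGN.trans (Real.rpow_le_rpow_of_exponent_le hNR (by norm_num))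
  have hG1N : (G : ℝ) ≤ N := by
    refine hGN.trans ?_
    calc (N : ℝ) ^ (1 / 10 : ℝ) ≤ (N : ℝ) ^ (1 : ℝ) := Real.rpow_le_rpow_of_exponent_le hNR (by norm_num)
      _ = N := Real.rpow_one _
  have hG5 : (G : ℝ) ^ 5 ≤ (N : ℝ) ^ (1 / 2 : ℝ) := by
    calc (G : ℝ) ^ 5 ≤ ((N : ℝ) ^ (1 / 10 : ℝ)) ^ 5 := pow_le_pow_left₀ (by positivity) hGN 5
      _ = (N : ℝ) ^ (1 / 2 : ℝ) := by
        rw [← Real.rpow_natCast, ← Real.rpow_mul hN0.le]
        norm_num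
  have hlogV2 : Real.log V ≤ K2 * N := by
    refine hlogV1.trans ?_
    have : K1 * G ≤ K1 * N := by gcongr
    rw [hK2]
    linarith
  have hloglog : Real.log (1 + Real.log V) ≤ 4 * (1 + K2) ^ (1 / 4 : ℝ) * (N : ℝ) ^ (1 / 4 : ℝ) := by
    have h1 : Real.log (1 + Real.log V) ≤ (1 + Real.log V) ^ (1 / 4 : ℝ) / (1 / 4) :=
      Real.log_le_rpow_div (by linarith) (by norm_num)
    have h2 : (1 + Real.log V) ^ (1 / 4 : ℝ) ≤ ((1 + K2) * N) ^ (1 / 4 : ℝ) := by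
      apply Real.rpow_le_rpow (by linarith) _ (by norm_num)
      linarith
    rw [Real.mul_rpow (by linarith) hN0.le] at h2
    linarith
  have hfin : C0 * (G : ℝ) ^ 5 * (1 + Real.log (1 + Real.log V)) ≤
      C0 * (1 + 4 * (1 + K2) ^ (1 / 4 : ℝ)) * (N : ℝ) ^ (3 / 4 : ℝ) := by
    have h1 : (1 : ℝ) ≤ (N : ℝ) ^ (1 / 4 : ℝ) := Real.one_le_rpow hNR (by norm_num)
    have h2 : 1 + Real.log (1 + Real.log V) ≤ (1 + 4 * (1 + K2) ^ (1 / 4 : ℝ)) * (N : ℝ) ^ (1 / 4 : ℝ) := by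
      linarith
    have h3 : (N : ℝ) ^ (1 / 2 : ℝ) * (N : ℝ) ^ (1 / 4 : ℝ) = (N : ℝ) ^ (3 / 4 : ℝ) := by
      rw [← Real.rpow_add hN0]; norm_num
    have h4 : 0 ≤ Real.log (1 + Real.log V) := Real.log_nonneg (by linarith)
    calc C0 * (G : ℝ) ^ 5 * (1 + Real.log (1 + Real.log V))
        ≤ C0 * (N : ℝ) ^ (1 / 2 : ℝ) * ((1 + 4 * (1 + K2) ^ (1 / 4 : ℝ)) * (N : ℝ) ^ (1 / 4 : ℝ)) := by gcongr
      _ = C0 * (1 + 4 * (1 + K2) ^ (1 / 4 : ℝ)) * ((N : ℝ) ^ (1 / 2 : ℝ) * (N : ℝ) ^ (1 / 4 : ℝ)) := by ring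
      _ = _ := by rw [h3]
  have hlogd : 0 ≤ Real.log ((d : ℝ) + 1) := Real.log_nonneg (by linarith)
  have hupper : ε / 4 * N ≤ K3 * (N : ℝ) ^ (3 / 4 : ℝ) := by
    have h1 : Real.log ((d : ℝ) + 1) ≤ Real.log ((d : ℝ) + 1) * (N : ℝ) ^ (3 / 4 : ℝ) := le_mul_of_one_le_right hlogd hN34
    have h2 : 2 * K1 * G ≤ 2 * K1 * (N : ℝ) ^ (3 / 4 : ℝ) := by gcongr
    rw [hK3]
    linarith
  have hlower : K3 * (N : ℝ) ^ (3 / 4 : ℝ) < ε / 4 * N := by
    rw [div_lt_iff₀ hε] at hN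
    have h1 : (N : ℝ) = (N : ℝ) ^ (1 / 4 : ℝ) * (N : ℝ) ^ (3 / 4 : ℝ) := by
      rw [← Real.rpow_add hN0]; norm_num
    have h2 : K3 < ε / 4 * (N : ℝ) ^ (1 / 4 : ℝ) := by linarith
    calc K3 * (N : ℝ) ^ (3 / 4 : ℝ) < (ε / 4 * (N : ℝ) ^ (1 / 4 : ℝ)) * (N : ℝ) ^ (3 / 4 : ℝ) :=
          mul_lt_mul_of_pos_right h2 (by positivity)
      _ = ε / 4 * ((N : ℝ) ^ (1 / 4 : ℝ) * (N : ℝ) ^ (3 / 4 : ℝ)) := by ring
      _ = ε / 4 * N := by rw [← h1]
  linarith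

end Pool.Agent.Helper46.TB
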